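import Mathlib

set_option autoImplicit false
set_option maxHeartbeats 1000000

/-!
The logarithmic derivative of a zero-free function which is not much larger than at the centre.
-/

open Complex MeasureTheory Set Filter Topology Metric

namespace Pool.Agent.Helper54.Nm

/-- the logarithmic derivative of a zero-free function in a disc -/
theorem ld_bound {H : ℂ → ℂ} {c : ℂ} {R M ρ : ℝ} (hM : 0 < M) (hρ : 0 < ρ)
    (hd : DifferentiableOn ℂ H (ball c R)) (h0 : ∀ z ∈ ball c R, H z ≠ 0)
    (hb : ∀ z ∈ ball c R, ‖H z‖ ≤ ‖H c‖ * Real.exp M) {z : ℂ} (hz : ‖z - c‖ ≤ R - ρ) :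
    ‖logDeriv H z‖ ≤ 8 * M * R / ρ ^ 2 := by
  have hR : ρ ≤ R := by linarith [norm_nonneg (z - c)]
  have hR0 : 0 < R := by linarith
  have hcm : c ∈ ball c R := mem_ball_self hR0
  -- the logarithmic derivative has a primitive
  have hld : DifferentiableOn ℂ (logDeriv H) (ball c R) := by
    intro z hz
    have h1 := (hd.deriv isOpen_ball) z hz
    exact h1.div (hd z hz) (h0 z hz)
  obtain ⟨g, hgc, hg⟩ := hld.isExactOn_ball.with_val_at c 0
  have hg' : ∀ z ∈ ball c R, HasDerivAt g (logDeriv H z) z := hg
  have hgd : DifferentiableOn ℂ g (ball c R) := fun z hz => (hg' z hz).differentiableAt.differentiableWithinAt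
  -- `H = H c * exp g`
  have hH : ∀ z ∈ ball c R, H z = H c * cexp (g z) := by
    have hder : ∀ z ∈ ball c R, HasDerivAt (fun z => H z * cexp (-g z)) 0 z := by
      intro z hz
      have h1 : HasDerivAt H (deriv H z) z := ((hd z hz).differentiableAt (isOpen_ball.mem_nhds hz)).hasDerivAt
      have h2 : HasDerivAt (fun z => cexp (-g z)) (cexp (-g z) * (-(logDeriv H z))) z :=
        ((hg' z hz).neg).cexp
      refine (h1.mul h2).congr_deriv ?_
      rw [logDeriv_apply]
      have := h0 z hz
      field_simp
      ring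
    intro z hz
    have h3 := (convex_ball c R).is_const_of_fderivWithin_eq_zero (𝕜 := ℂ) (f := fun z => H z * cexp (-g z))
      (fun z hz => (hder z hz).differentiableAt.differentiableWithinAt) (by
        intro z hz
        have h4 : HasFDerivAt (fun z => H z * cexp (-g z)) (0 : ℂ →L[ℂ] ℂ) z := by
          have := (hder z hz).hasFDerivAt
          simpa using this
        exact h4.hasFDerivWithinAt.fderivWithin (isOpen_ball.uniqueDiffWithinAt hz)) hz hcm
    rw [hgc, neg_zero, Complex.exp_zero, mul_one] at h3
    rw [← h3, mul_assoc, ← Complex.exp_add]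
    simp
  have hHc : 0 < ‖H c‖ := norm_pos_iff.2 (h0 c hcm)
  have hre : ∀ z ∈ ball c R, (g z).re ≤ M := by
    intro z hz
    have h5 := hb z hz
    rw [hH z hz, norm_mul, Complex.norm_exp] at h5
    exact Real.exp_le_exp.1 (le_of_mul_le_mul_left h5 hHc)
  -- Borel-Caratheodory
  have hbc : ∀ z ∈ ball c R, ‖g z‖ ≤ 2 * M * ‖z - c‖ / (R - ‖z - c‖) := by
    intro z hz
    have hz' : z - c ∈ ball (0 : ℂ) R := by
      rw [mem_ball_zero_iff]; rwa [mem_ball, dist_eq_norm] at hz
    have h6 := Complex.borelCaratheodory_zero (f := fun w => g (w + c)) (M := M) (R := R) hM (by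
      intro w hw
      have hw' : w + c ∈ ball c R := by
        rw [mem_ball, dist_eq_norm, add_sub_cancel_right]; rwa [mem_ball_zero_iff] at hw
      have h7 := (hg' _ hw').comp w ((hasDerivAt_id w).add_const c)
      exact h7.differentiableAt.differentiableWithinAt) (by
      intro w hw
      have hw' : w + c ∈ ball c R := by
        rw [mem_ball, dist_eq_norm, add_sub_cancel_right]; rwa [mem_ball_zero_iff] at hw
      exact hre _ hw') hR0 hz' (by simp only [zero_add]; exact hgc)
    simpa using h6
  -- Cauchy
  have hzm : z ∈ ball c R := by rw [mem_ball, dist_eq_norm]; linarith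
  have hcl : ∀ w ∈ closedBall z (ρ / 2), ‖w - c‖ ≤ R - ρ / 2 := by
    intro w hw
    rw [mem_closedBall, dist_eq_norm] at hw
    calc ‖w - c‖ = ‖(w - z) + (z - c)‖ := by congr 1; ring
      _ ≤ ‖w - z‖ + ‖z - c‖ := norm_add_le _ _
      _ ≤ _ := by linarith
  have h8 : ‖deriv g z‖ ≤ (4 * M * R / ρ) / (ρ / 2) := by
    refine Complex.norm_deriv_le_of_forall_mem_sphere_norm_le (by positivity) ?_ ?_
    · refine DifferentiableOn.diffContOnCl (hgd.mono ?_)
      intro w hw
      have := hcl w (closure_ball_subset_closedBall hw)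
      rw [mem_ball, dist_eq_norm]; linarith
    · intro w hw
      have h9 := hcl w (sphere_subset_closedBall hw)
      have hwm : w ∈ ball c R := by rw [mem_ball, dist_eq_norm]; linarith
      refine (hbc w hwm).trans ?_
      calc 2 * M * ‖w - c‖ / (R - ‖w - c‖) ≤ 2 * M * R / (ρ / 2) := by
            gcongr
            · linarith
            · linarith
        _ = _ := by field_simp; ring
  rw [← (hg' z hzm).deriv]
  refine h8.trans (le_of_eq ?_)
  field_simp
  ring

end Pool.Agent.Helper54.Nm
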