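import Pool.Agent.Helper54.Nt.U1

set_option autoImplicit false
set_option maxHeartbeats 1000000

/-!
The gamma factor on the line `Re = 4` compared with its exponential model at `1 + i x`.
-/

open Complex MeasureTheory Set Filter Topology

namespace Pool.Agent.Helper54.Nm

open Pool.Agent.Helper54.Xm Pool.Agent.Helper54.Hf Pool.Agent.Helper54.Nt

/-- the vertical growth on the line `Re = 4` -/
lemma all4 {C : ℝ} (h : GE C) : ∃ M : ℝ, 1 ≤ M ∧
    ∀ x u : ℝ, 8 ≤ x → ‖Gx (ln 4 u)‖ ≤ M * ‖Gx (ln 4 x)‖ * Real.exp (C * |u - x|) := by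
  have hC := h.1
  have hcont : ContinuousOn (fun u : ℝ => Gx (ln 4 u)) univ := by
    intro u _
    have : DifferentiableAt ℂ Gx (ln 4 u) := by
      unfold Gx
      have h3 : DifferentiableAt ℂ Gammaℝ (1 / 2 + ln 4 u) := by
        have h5 := (Complex.differentiable_Gammaℝ_inv.differentiableAt (x := 1 / 2 + ln 4 u)).inv
          (inv_ne_zero (Complex.Gammaℝ_ne_zero_of_re_pos (by
            rw [Complex.add_re, ln_re]; norm_num)))
        have h6 : ((fun s : ℂ => (Gammaℝ s)⁻¹)⁻¹ : ℂ → ℂ) = Gammaℝ := by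
          funext s
          simp
        rwa [h6] at h5
      have h4 : DifferentiableAt ℂ (fun w : ℂ => Gammaℝ (1 / 2 + w)) (ln 4 u) := by
        apply DifferentiableAt.comp (g := Gammaℝ) (f := fun w : ℂ => 1 / 2 + w)
        · exact h3
        · fun_prop
      fun_prop
    exact (this.continuousAt.comp (ln_cont 4).continuousAt).continuousWithinAt
  obtain ⟨B, hB⟩ := isCompact_Icc.exists_bound_of_continuousOn (hcont.mono (subset_univ (Icc (-8 : ℝ) 8)))
  have hG4 : 0 < ‖Gx (ln 4 8)‖ := by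
    refine norm_pos_iff.2 (Gx_ne (by rw [ln_re]; norm_num) ?_)
    intro h5
    have := congrArg Complex.im h5
    rw [ln_im] at this
    norm_num at this
  refine ⟨max 1 (B / ‖Gx (ln 4 8)‖), le_max_left _ _, fun x u hx => ?_⟩
  have hln : ∀ v, ln 4 v = ⟨4, v⟩ := fun v => by apply Complex.ext <;> simp [ln]
  have hconj : ‖Gx (ln 4 u)‖ = ‖Gx (ln 4 |u|)‖ := by
    rcases le_or_gt 0 u with hu | hu
    · rw [abs_of_nonneg hu]
    · rw [abs_of_neg hu]
      have e : ln 4 u = starRingEnd ℂ (ln 4 (-u)) := by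
        apply Complex.ext <;> simp [ln]
      rw [e, Gx_conj, RCLike.norm_conj]
  have habs : |(|u|) - x| ≤ |u - x| := by
    have := abs_abs_sub_abs_le u x
    rwa [abs_of_nonneg (by linarith : (0 : ℝ) ≤ x)] at this
  have ha : |(4 : ℝ)| = 4 := by norm_num
  rcases le_or_gt 8 |u| with hu | hu
  · rw [hconj]
    have h6 := h.ver (a := 4) (x := x) (u := |u|) (by linarith) (by linarith) (by linarith) (by linarith)
    rw [← hln, ← hln] at h6
    calc ‖Gx (ln 4 |u|)‖ ≤ 1 * ‖Gx (ln 4 x)‖ * Real.exp (C * |(|u|) - x|) := by rw [one_mul]; exact h6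
      _ ≤ _ := by
        gcongr
        exact le_max_left _ _
  · have h7 : ‖Gx (ln 4 u)‖ ≤ B := hB u ⟨(abs_lt.1 hu).1.le, (abs_lt.1 hu).2.le⟩
    have h8 := h.ver (a := 4) (x := x) (u := 8) (by linarith) (by norm_num) (by linarith) (by linarith)
    rw [← hln, ← hln] at h8
    have h9 : |8 - x| ≤ |u - x| := by
      rw [abs_of_nonpos (by linarith), abs_of_nonpos (by linarith [(abs_lt.1 hu).2])]
      linarith [(abs_lt.1 hu).2]
    have hB0 : 0 ≤ B := (norm_nonneg _).trans h7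
    calc ‖Gx (ln 4 u)‖ ≤ B := h7
      _ = B / ‖Gx (ln 4 8)‖ * ‖Gx (ln 4 8)‖ := by field_simp
      _ ≤ max 1 (B / ‖Gx (ln 4 8)‖) * (‖Gx (ln 4 x)‖ * Real.exp (C * |8 - x|)) := by
        gcongr
        exact le_max_right _ _
      _ ≤ max 1 (B / ‖Gx (ln 4 8)‖) * (‖Gx (ln 4 x)‖ * Real.exp (C * |u - x|)) := by gcongr
      _ = _ := by ring

/-- the ratio of the gamma factor and its exponential model -/
noncomputable def rt (x u : ℝ) : ℂ :=
  Gx (ln 4 u) / Gx (ln 1 x) * cexp (-(logDeriv Gx (ln 1 x) * (ln 4 u - ln 1 x)))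

/-- the ratio is near one close to the base point, and it grows at most exponentially -/
theorem rt_bounds : ∃ K : ℝ, 1 ≤ K ∧ ∀ x u : ℝ, 64 ≤ x →
    (9 + (u - x) ^ 2 ≤ x → ‖rt x u - 1‖ ≤ K * ((9 + (u - x) ^ 2) / x)) ∧
    ‖rt x u‖ ≤ K * Real.exp (K * |u - x|) := by
  obtain ⟨C, h⟩ := exists_GE
  obtain ⟨M, hM, hM2⟩ := all4 h
  have hC := h.1
  set K0 : ℝ := 4 * (2 * C + 1) with hK0
  have hK00 : 0 ≤ K0 := by rw [hK0]; linarith
  refine ⟨K0 * Real.exp K0 + M * Real.exp (6 * C) + 2 * C, ?_, fun x u hx => ?_⟩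
  · have h1 : 0 ≤ K0 * Real.exp K0 := by positivity
    have h2 : 0 ≤ M * Real.exp (6 * C) := by positivity
    linarith
  set K : ℝ := K0 * Real.exp K0 + M * Real.exp (6 * C) + 2 * C with hK
  have hx0 : 0 < x := by linarith
  have e1 : 0 ≤ K0 * Real.exp K0 := by positivity
  have e2 : 0 ≤ M * Real.exp (6 * C) := by positivity
  have hK1 : K0 * Real.exp K0 ≤ K := by rw [hK]; linarith
  have hK2 : M * Real.exp (6 * C) ≤ K := by rw [hK]; linarith
  have hK3 : 2 * C ≤ K := by rw [hK]; linarith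
  have hKp : 0 ≤ K := by linarith
  set lam := logDeriv Gx (ln 1 x) with hlam
  have hne : Gx (ln 1 x) ≠ 0 :=
    (h.2 (ln 1 x) (by rw [ln_im]; linarith) (by rw [ln_im, ln_re, abs_one]; linarith)).1
  set h0 : ℂ := ln 4 u - ln 1 x with hh0
  have hh : h0 = (3 : ℂ) + ((u - x : ℝ) : ℂ) * I := by
    rw [hh0]; unfold ln; push_cast; ring
  have hhn : ‖h0‖ ^ 2 = 9 + (u - x) ^ 2 := by
    rw [← Complex.normSq_eq_norm_sq, Complex.normSq_apply, hh]
    simp
    ring
  have hhre : h0.re = 3 := by rw [hh]; simp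
  have hhim : h0.im = u - x := by rw [hh]; simp
  constructor
  · intro hv
    have hv8 : ‖h0‖ ≤ x / 8 := by
      have : ‖h0‖ ^ 2 ≤ (x / 8) ^ 2 := by rw [hhn]; nlinarith
      exact le_of_sq_le_sq this (by positivity)
    have hz : ∀ s ∈ Icc (0 : ℝ) 1, 4 ≤ (ln 1 x + s * h0).im ∧
        |(ln 1 x + s * h0).re| ≤ (ln 1 x + s * h0).im / 2 := by
      intro s hs
      have e1 : (ln 1 x + s * h0).im = x + s * (u - x) := by
        rw [Complex.add_im, ln_im, Complex.im_ofReal_mul, hhim]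
      have e2 : (ln 1 x + s * h0).re = 1 + s * 3 := by
        rw [Complex.add_re, ln_re, Complex.re_ofReal_mul, hhre]
      rw [e1, e2]
      have h3 : |s * (u - x)| ≤ x / 8 := by
        rw [abs_mul, abs_of_nonneg hs.1]
        have h3' : |u - x| ≤ ‖h0‖ := by rw [← hhim]; exact Complex.abs_im_le_norm _
        calc s * |u - x| ≤ 1 * |u - x| := by gcongr; exact hs.2
          _ ≤ _ := by rw [one_mul]; exact h3'.trans hv8
      have h4 := (abs_le.1 h3).1
      refine ⟨by linarith, ?_⟩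
      rw [abs_of_nonneg (by linarith [hs.1])]
      linarith [hs.2]
    have h1 := h.line hz
    have h2 : ∀ s ∈ Icc (0 : ℝ) 1, HasDerivAt (fun s : ℝ => Gx (ln 1 x + s * h0) /
        Gx (ln 1 x) * cexp (-(lam * h0) * s))
        ((h0 * (logDeriv Gx (ln 1 x + s * h0) - lam)) *
          (Gx (ln 1 x + s * h0) / Gx (ln 1 x) * cexp (-(lam * h0) * s))) s := by
      intro s hs
      have h5 : HasDerivAt (fun s : ℝ => cexp (-(lam * h0) * s))
          (cexp (-(lam * h0) * s) * (-(lam * h0))) s := by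
        have : HasDerivAt (fun s : ℝ => -(lam * h0) * (s : ℂ)) (-(lam * h0)) s := by
          have h6 : HasDerivAt (fun s : ℝ => (s : ℂ)) 1 s := Complex.ofRealCLM.hasDerivAt
          simpa using h6.const_mul (-(lam * h0))
        exact this.cexp
      refine (((h1 s hs).div_const (Gx (ln 1 x))).mul h5).congr_deriv ?_
      field_simp
      ring
    have hKv : K0 * (‖h0‖ ^ 2 / x) ≤ K0 := by
      have : ‖h0‖ ^ 2 / x ≤ 1 := by rw [div_le_one hx0, hhn]; exact hv
      nlinarith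
    have h3 := grow_sub (K := K0 * (‖h0‖ ^ 2 / x)) (by positivity) h2 (by
      intro s hs
      have e3 : ‖(ln 1 x + s * h0) - ln 1 x‖ = s * ‖h0‖ := by
        rw [add_sub_cancel_left, norm_mul, Complex.norm_real, Real.norm_of_nonneg hs.1]
      have hsv : s * ‖h0‖ ≤ ‖h0‖ := by
        calc s * ‖h0‖ ≤ 1 * ‖h0‖ := by gcongr; exact hs.2
          _ = _ := one_mul _
      have h4 := h.lip (by linarith : 16 ≤ x) (z := ln 1 x + s * h0) (by
        rw [e3]; linarith)
      rw [e3] at h4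
      rw [norm_mul]
      calc ‖h0‖ * ‖logDeriv Gx (ln 1 x + s * h0) - lam‖
          ≤ ‖h0‖ * (4 * (2 * C + 1) / x * ‖h0‖) := by
            gcongr
            exact h4.trans (by gcongr)
        _ = K0 * (‖h0‖ ^ 2 / x) := by rw [hK0]; ring)
    simp only [Complex.ofReal_one, Complex.ofReal_zero, one_mul, zero_mul, mul_zero, add_zero,
      Complex.exp_zero, mul_one] at h3
    rw [div_self hne, norm_one, mul_one] at h3
    have e4 : ln 1 x + h0 = ln 4 u := by rw [hh0]; ring
    rw [e4, neg_mul_eq_neg_mul] at h3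
    have e5 : rt x u = Gx (ln 4 u) / Gx (ln 1 x) * cexp (-lam * h0) := by
      unfold rt
      rw [← hlam, ← hh0, neg_mul]
    rw [e5]
    refine h3.trans ?_
    rw [← hhn]
    calc K0 * (‖h0‖ ^ 2 / x) * Real.exp (K0 * (‖h0‖ ^ 2 / x)) ≤ K0 * (‖h0‖ ^ 2 / x) * Real.exp K0 := by gcongr
      _ = K0 * Real.exp K0 * (‖h0‖ ^ 2 / x) := by ring
      _ ≤ K * (‖h0‖ ^ 2 / x) := by gcongr
  · have h2 := hM2 x u (by linarith)
    have h3 := h.hor (a := 1) (b := 4) (x := x) (by linarith) (by rw [abs_one]; linarith)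
      (by rw [abs_of_pos (by norm_num : (0:ℝ) < 4)]; linarith)
    have hln : ∀ b v : ℝ, (⟨b, v⟩ : ℂ) = ln b v := fun b v => by apply Complex.ext <;> simp [ln]
    rw [hln, hln] at h3
    have h4 : ‖cexp (-(lam * h0))‖ ≤ Real.exp (-(3 * (1 / 2 * Real.log x)) + 3 * C + C * |u - x|) := by
      rw [Complex.norm_exp]
      apply Real.exp_le_exp.2
      have e : (-(lam * h0)).re = -(3 * lam.re) + (u - x) * lam.im := by
        rw [Complex.neg_re, Complex.mul_re, hhre, hhim]; ring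
      rw [e]
      have e6 := (abs_le.1 (h.lam_re (by linarith : 4 ≤ x))).1
      have e7 : (u - x) * lam.im ≤ C * |u - x| := by
        refine (le_abs_self _).trans ?_
        rw [abs_mul, mul_comm]
        gcongr
        exact h.lam_im (by linarith)
      rw [← hlam] at e6
      linarith
    have h5 : 0 < ‖Gx (ln 1 x)‖ := norm_pos_iff.2 hne
    unfold rt
    rw [← hlam, ← hh0, norm_mul, norm_div]
    have h3' : |(4 : ℝ) - 1| = 3 := by norm_num
    rw [h3'] at h3
    calc ‖Gx (ln 4 u)‖ / ‖Gx (ln 1 x)‖ * ‖cexp (-(lam * h0))‖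
        ≤ (M * (‖Gx (ln 1 x)‖ * Real.exp ((4 - 1) * (1 / 2 * Real.log x) + C * 3)) *
            Real.exp (C * |u - x|)) / ‖Gx (ln 1 x)‖ *
            Real.exp (-(3 * (1 / 2 * Real.log x)) + 3 * C + C * |u - x|) := by
          gcongr
          exact h2.trans (by gcongr)
      _ = M * (Real.exp ((4 - 1) * (1 / 2 * Real.log x) + C * 3) * Real.exp (C * |u - x|) *
            Real.exp (-(3 * (1 / 2 * Real.log x)) + 3 * C + C * |u - x|)) := by field_simp
      _ = M * Real.exp (6 * C) * Real.exp (2 * C * |u - x|) := by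
          rw [← Real.exp_add, ← Real.exp_add, mul_assoc, ← Real.exp_add]
          ring_nf
      _ ≤ K * Real.exp (K * |u - x|) := by gcongr

end Pool.Agent.Helper54.Nm
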