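import Pool.Agent.Helper54.Nm.A2

set_option autoImplicit false
set_option maxHeartbeats 1000000

/-!
The kernel estimate: the gamma ratio against a Gaussian.
-/

open Complex MeasureTheory Set Filter Topology

namespace Pool.Agent.Helper54.Nm

open Pool.Agent.Helper54.Xm Pool.Agent.Helper54.Hf Pool.Agent.Helper54.Nt

/-- the error of the exponential model against the Gaussian -/
theorem rt_err : ∃ K x0 : ℝ, 1 ≤ K ∧ 64 ≤ x0 ∧ ∀ x R y τ u : ℝ, x0 ≤ x → 0 ≤ R → R ≤ Real.sqrt x / 4 →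
    |y - x| ≤ R → 0 < τ → τ ≤ 1 →
    ‖rt x u - 1‖ ≤ K * ((1 + R ^ 2) / x) * Real.exp ((u - y) ^ 2 / (8 * τ)) := by
  obtain ⟨K, hK, hr⟩ := rt_bounds
  have hKp : 0 ≤ K := by linarith
  -- threshold
  have hev : ∀ᶠ x : ℝ in atTop, Real.log x ≤ x / 256 - 0 := by
    have h1 := (Real.isLittleO_log_id_atTop).bound (by norm_num : (0:ℝ) < 1 / 256)
    filter_upwards [h1, eventually_ge_atTop 1] with x hx h1x
    rw [Real.norm_of_nonneg (Real.log_nonneg h1x)] at hx
    simp only [id, Real.norm_eq_abs, abs_of_nonneg (by linarith : (0:ℝ) ≤ x)] at hx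
    linarith
  obtain ⟨x1, hx1⟩ := Filter.eventually_atTop.1 hev
  refine ⟨50 * K, max (max 64 x1) ((4 * (64 * K)) ^ 2), by linarith, (le_max_left _ _).trans (le_max_left _ _), ?_⟩
  intro x R y τ u hx hR0 hR hy hτ hτ1
  have hx64 : 64 ≤ x := ((le_max_left _ _).trans (le_max_left _ _)).trans hx
  have hx1' : x1 ≤ x := ((le_max_right _ _).trans (le_max_left _ _)).trans hx
  have hxK : (4 * (64 * K)) ^ 2 ≤ x := (le_max_right _ _).trans hx
  have hx0 : 0 < x := by linarith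
  have hlog := hx1 x hx1'
  set v := u - y with hv
  have hsq : Real.sqrt x ^ 2 = x := Real.sq_sqrt hx0.le
  have hs0 : 0 < Real.sqrt x := Real.sqrt_pos.2 hx0
  have hsK : 4 * (64 * K) ≤ Real.sqrt x := by
    apply Real.le_sqrt_of_sq_le
    exact hxK
  have he1 : 1 ≤ Real.exp (v ^ 2 / (8 * τ)) := Real.one_le_exp (by positivity)
  have hux : |u - x| ≤ |v| + R := by
    calc |u - x| = |v + (y - x)| := by rw [hv]; congr 1; ring
      _ ≤ |v| + |y - x| := abs_add_le _ _
      _ ≤ _ := by linarith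
  have hxsq : 8 ≤ Real.sqrt x := by
    apply Real.le_sqrt_of_sq_le; linarith
  rcases le_or_gt (|u - x|) (Real.sqrt x / 2) with h | h
  · have h1 : (u - x) ^ 2 ≤ x / 4 := by
      have : |u - x| ^ 2 ≤ (Real.sqrt x / 2) ^ 2 := by gcongr
      rw [sq_abs] at this
      rw [div_pow, hsq] at this
      linarith
    have h2 : 9 + (u - x) ^ 2 ≤ x := by linarith
    have h3 := (hr x u hx64).1 h2
    have h4 : (u - x) ^ 2 ≤ 2 * v ^ 2 + 2 * R ^ 2 := by
      have : |u - x| ^ 2 ≤ (|v| + R) ^ 2 := by gcongr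
      rw [sq_abs] at this
      nlinarith [sq_abs v, sq_nonneg (|v| - R)]
    have h5 : v ^ 2 ≤ 8 * Real.exp (v ^ 2 / (8 * τ)) := by
      have h6 : v ^ 2 / (8 * τ) + 1 ≤ Real.exp (v ^ 2 / (8 * τ)) := Real.add_one_le_exp _
      have h7 : v ^ 2 / 8 ≤ v ^ 2 / (8 * τ) := by
        apply div_le_div_of_nonneg_left (sq_nonneg _) (by positivity) (by linarith)
      linarith
    refine h3.trans ?_
    have h8 : 9 + (u - x) ^ 2 ≤ 50 * (1 + R ^ 2) * Real.exp (v ^ 2 / (8 * τ)) := by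
      nlinarith [sq_nonneg R]
    calc K * ((9 + (u - x) ^ 2) / x) ≤ K * ((50 * (1 + R ^ 2) * Real.exp (v ^ 2 / (8 * τ))) / x) := by
          gcongr
      _ = _ := by ring
  · have h1 : ‖rt x u - 1‖ ≤ 2 * K * Real.exp (K * |u - x|) := by
      refine (norm_sub_le _ _).trans ?_
      have h2 := (hr x u hx64).2
      have h3 : (1 : ℝ) ≤ K * Real.exp (K * |u - x|) := by
        have : 1 ≤ Real.exp (K * |u - x|) := Real.one_le_exp (by positivity)
        nlinarith
      rw [norm_one]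
      linarith
    have hvl : Real.sqrt x / 4 ≤ |v| := by linarith
    have h2 : |u - x| ≤ 2 * |v| := by linarith
    have hv2 : |v| ^ 2 = v ^ 2 := sq_abs v
    have h3 : K * |u - x| + Real.log x ≤ v ^ 2 / (8 * τ) := by
      have h4 : v ^ 2 / 8 ≤ v ^ 2 / (8 * τ) := by
        apply div_le_div_of_nonneg_left (sq_nonneg _) (by positivity) (by linarith)
      have h5 : K * |u - x| ≤ K * (2 * |v|) := by gcongr
      have h6 : K * (2 * |v|) ≤ v ^ 2 / 16 := by
        rw [← hv2]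
        have : 64 * K ≤ |v| := by linarith
        nlinarith [abs_nonneg v]
      have h7 : x / 256 ≤ v ^ 2 / 16 := by
        rw [← hv2]
        have : (Real.sqrt x / 4) ^ 2 ≤ |v| ^ 2 := by gcongr
        rw [div_pow, hsq] at this
        linarith
      linarith
    have h4 : Real.exp (K * |u - x|) ≤ (1 / x) * Real.exp (v ^ 2 / (8 * τ)) := by
      have h5 : Real.exp (K * |u - x| + Real.log x) ≤ Real.exp (v ^ 2 / (8 * τ)) := Real.exp_le_exp.2 h3
      rw [Real.exp_add, Real.exp_log hx0] at h5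
      rw [one_div, inv_mul_eq_div, le_div_iff₀ hx0]
      exact h5
    refine h1.trans ?_
    calc 2 * K * Real.exp (K * |u - x|) ≤ 2 * K * ((1 / x) * Real.exp (v ^ 2 / (8 * τ))) := by gcongr
      _ = 2 * K * (1 / x) * Real.exp (v ^ 2 / (8 * τ)) := by ring
      _ ≤ 50 * K * ((1 + R ^ 2) / x) * Real.exp (v ^ 2 / (8 * τ)) := by
        gcongr
        · linarith
        · nlinarith [sq_nonneg R]

/-- the heat flow divided by its exponential factor; the argument is shifted by `2 τ λ` -/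
noncomputable def Bx (τ x : ℝ) (w : ℂ) : ℂ :=
  Hx (-τ) (w + 2 * τ * logDeriv Gx (ln 1 x)) /
    (Gx (ln 1 x) * cexp (logDeriv Gx (ln 1 x) * w + τ * logDeriv Gx (ln 1 x) ^ 2 -
      logDeriv Gx (ln 1 x) * ln 1 x))

lemma Gx1_ne {x : ℝ} (hx : 4 ≤ x) : Gx (ln 1 x) ≠ 0 := by
  obtain ⟨C, h⟩ := exists_GE
  exact (h.2 (ln 1 x) (by rw [ln_im]; linarith) (by rw [ln_im, ln_re, abs_one]; linarith)).1

lemma fx4 (u : ℝ) : fx (ln 4 u) = Gx (ln 4 u) * riemannZeta (1 / 2 + ln 4 u) := by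
  refine fx_eq (by rw [ln_re]; norm_num) (by
    intro h
    have := congrArg Complex.re h
    rw [ln_re] at this
    norm_num at this)

/-- the integral representation -/
lemma Bx_int {τ : ℝ} (hτ : 0 < τ) {x : ℝ} (hx : 4 ≤ x) (w : ℂ) :
    ∫ u : ℝ, rt x u * riemannZeta (1 / 2 + ln 4 u) * cexp ((ln 4 u - w) ^ 2 / (4 * τ)) =
      (Real.sqrt (4 * Real.pi * τ) : ℂ) * Bx τ x w := by
  have hτ' : (τ : ℂ) ≠ 0 := by exact_mod_cast hτ.ne'
  have hG := Gx1_ne hx
  set lam := logDeriv Gx (ln 1 x) with hlam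
  have h := Hx_neg hτ 4 (w + 2 * τ * lam)
  unfold Bx
  rw [← hlam, ← mul_div_assoc, ← h, eq_div_iff (mul_ne_zero hG (Complex.exp_ne_zero _)),
    ← integral_mul_const]
  refine integral_congr_ae (Eventually.of_forall fun u => ?_)
  simp only
  rw [fx4]
  unfold rt
  rw [← hlam]
  have e : cexp ((ln 4 u - (w + 2 * τ * lam)) ^ 2 / (4 * τ)) =
      cexp (-(lam * (ln 4 u - ln 1 x))) * cexp ((ln 4 u - w) ^ 2 / (4 * τ)) *
        cexp (lam * w + τ * lam ^ 2 - lam * ln 1 x) := by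
    rw [← Complex.exp_add, ← Complex.exp_add]
    congr 1
    field_simp
    ring
  rw [e]
  field_simp

end Pool.Agent.Helper54.Nm
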