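import Pool.Agent.Helper54.Nm.A3

set_option autoImplicit false
set_option maxHeartbeats 1000000

/-!
The heat flow at negative times is close to a Dirichlet series.
-/

open Complex MeasureTheory Set Filter Topology

namespace Pool.Agent.Helper54.Nm

open Pool.Agent.Helper54.Xm Pool.Agent.Helper54.Hf Pool.Agent.Helper54.Nt

/-- the coefficients -/
noncomputable def gt (τ : ℝ) (n : ℕ) : ℝ := Real.exp (-(τ * Real.log n ^ 2))

lemma gt_pos (τ : ℝ) (n : ℕ) : 0 < gt τ n := Real.exp_pos _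
lemma gt_le {τ : ℝ} (hτ : 0 ≤ τ) (n : ℕ) : gt τ n ≤ 1 := by
  unfold gt
  apply Real.exp_le_one_iff.2
  have : 0 ≤ τ * Real.log n ^ 2 := by positivity
  linarith

/-- the coefficients as complex numbers -/
noncomputable def gc (τ : ℝ) (n : ℕ) : ℂ := ((gt τ n : ℝ) : ℂ)

/-- the Dirichlet series -/
noncomputable def Dt (τ : ℝ) (s : ℂ) : ℂ := LSeries (gc τ) s

lemma zeta_cont4 : Continuous (fun u : ℝ => riemannZeta (1 / 2 + ln 4 u)) := by
  rw [continuous_iff_continuousAt]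
  intro u
  have h1 : DifferentiableAt ℂ riemannZeta (1 / 2 + ln 4 u) := by
    apply differentiableAt_riemannZeta
    intro h
    have := congrArg Complex.re h
    rw [Complex.add_re, ln_re] at this
    norm_num at this
  have h2 : Continuous (fun u : ℝ => 1 / 2 + ln 4 u) := by have := ln_cont 4; fun_prop
  exact ContinuousAt.comp (f := fun u : ℝ => 1 / 2 + ln 4 u) h1.continuousAt h2.continuousAt

lemma Gx4_cont : Continuous (fun u : ℝ => Gx (ln 4 u)) := by
  rw [continuous_iff_continuousAt]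
  intro u
  have : DifferentiableAt ℂ Gx (ln 4 u) := by
    unfold Gx
    have h3 : DifferentiableAt ℂ Gammaℝ (1 / 2 + ln 4 u) := by
      have h5 := (Complex.differentiable_Gammaℝ_inv.differentiableAt (x := 1 / 2 + ln 4 u)).inv
        (inv_ne_zero (Complex.Gammaℝ_ne_zero_of_re_pos (by
          rw [Complex.add_re, ln_re]; norm_num)))
      have h6 : ((fun s : ℂ => (Gammaℝ s)⁻¹)⁻¹ : ℂ → ℂ) = Gammaℝ := by
        funext s
        simp
      rwa [h6] at h5
    have h4 : DifferentiableAt ℂ (fun w : ℂ => Gammaℝ (1 / 2 + w)) (ln 4 u) := by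
      apply DifferentiableAt.comp (g := Gammaℝ) (f := fun w : ℂ => 1 / 2 + w)
      · exact h3
      · fun_prop
    fun_prop
  exact this.continuousAt.comp (ln_cont 4).continuousAt

lemma rt_cont (x : ℝ) : Continuous (fun u : ℝ => rt x u) := by
  unfold rt
  have h1 := Gx4_cont
  have h2 := ln_cont 4
  fun_prop

/-- the constant `ζ(9/2)` -/
noncomputable def Z4 : ℝ := ∑' m : ℕ, 1 / (m : ℝ) ^ (9 / 2 : ℝ)

lemma Z4_sum : Summable (fun m : ℕ => 1 / (m : ℝ) ^ (9 / 2 : ℝ)) :=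
  Real.summable_one_div_nat_rpow.2 (by norm_num)

lemma Z4_one : 1 ≤ Z4 := by
  have h := Z4_sum.le_tsum 1 (fun m _ => by positivity)
  simpa [Z4] using h

lemma half4_re (u : ℝ) : (1 / 2 + ln 4 u : ℂ).re = 9 / 2 := by
  rw [Complex.add_re, ln_re]; norm_num

lemma pow_norm (m : ℕ) (u : ℝ) : ‖1 / (m : ℂ) ^ (1 / 2 + ln 4 u)‖ = 1 / (m : ℝ) ^ (9 / 2 : ℝ) := by
  rw [norm_div, norm_one]
  congr 1
  rcases Nat.eq_zero_or_pos m with rfl | hm
  · rw [Nat.cast_zero, Complex.zero_cpow, norm_zero, Nat.cast_zero, Real.zero_rpow (by norm_num)]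
    intro h
    have := congrArg Complex.re h
    rw [half4_re] at this
    norm_num at this
  · rw [Complex.norm_natCast_cpow_of_pos hm, half4_re]

lemma zeta4 (u : ℝ) : riemannZeta (1 / 2 + ln 4 u) = ∑' m : ℕ, 1 / (m : ℂ) ^ (1 / 2 + ln 4 u) :=
  zeta_eq_tsum_one_div_nat_cpow (by rw [half4_re]; norm_num)

lemma zeta4_norm (u : ℝ) : ‖riemannZeta (1 / 2 + ln 4 u)‖ ≤ Z4 := by
  rw [zeta4]
  refine (norm_tsum_le_tsum_norm ?_).trans (le_of_eq ?_)
  · simp only [pow_norm]; exact Z4_sum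
  · simp only [pow_norm]; rfl

/-- integrability against the Gaussian -/
lemma int_gk {τ : ℝ} (hτ : 0 < τ) (w : ℂ) :
    Integrable (fun u : ℝ => cexp ((ln 4 u - w) ^ 2 / (4 * τ))) := by
  have h := (gk_int hτ w.im).const_mul (Real.exp ((4 - w.re) ^ 2 / (4 * τ)))
  refine Integrable.mono' h ?_ (Eventually.of_forall fun u => ?_)
  · have := ln_cont 4
    exact (by fun_prop : Continuous (fun u : ℝ => cexp ((ln 4 u - w) ^ 2 / (4 * τ)))).aestronglyMeasurable
  · rw [norm_gk, ← Real.exp_add]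
    apply le_of_eq
    congr 1
    ring

lemma gauss_norm_int {τ : ℝ} (hτ : 0 < τ) (w : ℂ) :
    ∫ u : ℝ, ‖cexp ((ln 4 u - w) ^ 2 / (4 * τ))‖ =
      Real.exp ((4 - w.re) ^ 2 / (4 * τ)) * ∫ u : ℝ, Real.exp (-(u - w.im) ^ 2 / (4 * τ)) := by
  rw [← integral_const_mul]
  refine integral_congr_ae (Eventually.of_forall fun u => ?_)
  simp only
  rw [norm_gk, ← Real.exp_add]
  congr 1
  ring

/-- the main term -/
theorem main_int {τ : ℝ} (hτ : 0 < τ) (w : ℂ) :
    ∫ u : ℝ, riemannZeta (1 / 2 + ln 4 u) * cexp ((ln 4 u - w) ^ 2 / (4 * τ)) =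
      (Real.sqrt (4 * Real.pi * τ) : ℂ) * Dt τ (1 / 2 + w) := by
  have hF : ∀ m : ℕ, Integrable (fun u : ℝ => 1 / (m : ℂ) ^ (1 / 2 + ln 4 u) *
      cexp ((ln 4 u - w) ^ 2 / (4 * τ))) := by
    intro m
    refine Integrable.mono' ((int_gk hτ w).norm.const_mul (1 / (m : ℝ) ^ (9 / 2 : ℝ))) ?_
      (Eventually.of_forall fun u => ?_)
    · have h1 := ln_cont 4
      rcases Nat.eq_zero_or_pos m with rfl | hm
      · have : ∀ u : ℝ, ((0 : ℕ) : ℂ) ^ (1 / 2 + ln 4 u) = 0 := by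
          intro u
          rw [Nat.cast_zero, Complex.zero_cpow]
          intro h
          have := congrArg Complex.re h
          rw [half4_re] at this
          norm_num at this
        simp only [this, div_zero, zero_mul]
        exact aestronglyMeasurable_const
      · have hm0 : (m : ℂ) ≠ 0 := by exact_mod_cast hm.ne'
        have h2 : Continuous (fun u : ℝ => (m : ℂ) ^ (1 / 2 + ln 4 u)) := by
          refine Continuous.const_cpow (by fun_prop) (Or.inl hm0)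
        have h3 : ∀ u : ℝ, (m : ℂ) ^ (1 / 2 + ln 4 u) ≠ 0 := fun u => by
          rw [Ne, Complex.cpow_eq_zero_iff]; tauto
        exact (by fun_prop (disch := exact h3 _) : Continuous (fun u : ℝ => 1 / (m : ℂ) ^ (1 / 2 + ln 4 u) *
          cexp ((ln 4 u - w) ^ 2 / (4 * τ)))).aestronglyMeasurable
    · rw [norm_mul, pow_norm]
  have hsum : Summable (fun m : ℕ => ∫ u : ℝ, ‖1 / (m : ℂ) ^ (1 / 2 + ln 4 u) *
      cexp ((ln 4 u - w) ^ 2 / (4 * τ))‖) := by
    simp only [norm_mul, pow_norm]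
    simp only [integral_const_mul]
    exact Z4_sum.mul_right _
  have h1 := integral_tsum_of_summable_integral_norm hF hsum
  have h2 : ∀ u : ℝ, riemannZeta (1 / 2 + ln 4 u) * cexp ((ln 4 u - w) ^ 2 / (4 * τ)) =
      ∑' m : ℕ, 1 / (m : ℂ) ^ (1 / 2 + ln 4 u) * cexp ((ln 4 u - w) ^ 2 / (4 * τ)) := by
    intro u
    rw [zeta4, ← tsum_mul_right]
  simp only [h2]
  rw [← h1]
  unfold Dt LSeries
  rw [← tsum_mul_left]
  refine tsum_congr fun m => ?_
  rcases Nat.eq_zero_or_pos m with rfl | hm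
  · have : ∀ u : ℝ, ((0 : ℕ) : ℂ) ^ (1 / 2 + ln 4 u) = 0 := by
      intro u
      rw [Nat.cast_zero, Complex.zero_cpow]
      intro h
      have := congrArg Complex.re h
      rw [half4_re] at this
      norm_num at this
    simp only [this, div_zero, zero_mul, integral_zero, LSeries.term_zero, mul_zero]
  · have hm0 : (m : ℂ) ≠ 0 := by exact_mod_cast hm.ne'
    rw [LSeries.term_of_ne_zero hm.ne']
    have e1 : ∀ u : ℝ, 1 / (m : ℂ) ^ (1 / 2 + ln 4 u) * cexp ((ln 4 u - w) ^ 2 / (4 * τ)) =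
        (m : ℂ) ^ (-(1 / 2 : ℂ)) * cexp (ln 4 u * ((-Real.log m : ℝ) : ℂ) + (ln 4 u - w) ^ 2 / (4 * τ)) := by
      intro u
      rw [one_div, ← Complex.cpow_neg, Complex.cpow_def_of_ne_zero hm0,
        Complex.cpow_def_of_ne_zero hm0, ← Complex.natCast_log,
        ← Complex.exp_add, ← Complex.exp_add]
      congr 1
      push_cast
      ring
    simp only [e1]
    rw [integral_const_mul, gauss_line hτ]
    unfold gc gt
    rw [div_eq_mul_inv (((Real.exp (-(τ * Real.log m ^ 2)) : ℝ) : ℂ)), ← Complex.cpow_neg,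
      Complex.cpow_def_of_ne_zero hm0,
      Complex.cpow_def_of_ne_zero hm0, ← Complex.natCast_log, Complex.ofReal_exp]
    have e2 : cexp ((-(τ * Real.log m ^ 2) : ℝ) : ℂ) * cexp ((Real.log m : ℂ) * -(1 / 2 + w)) =
        cexp ((Real.log m : ℂ) * -(1 / 2)) * cexp (w * ((-Real.log m : ℝ) : ℂ) - τ * ((-Real.log m : ℝ) : ℂ) ^ 2) := by
      rw [← Complex.exp_add, ← Complex.exp_add]
      congr 1
      push_cast
      ring
    rw [e2]
    ring

/-- a bound for Gaussian integrals -/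
lemma gint_bound {τ : ℝ} (hτ : 0 < τ) {F : ℝ → ℂ} {A : ℝ} (hA : 0 ≤ A) (w : ℂ)
    (hF : ∀ u, ‖F u‖ ≤ A * Real.exp ((u - w.im) ^ 2 / (8 * τ))) :
    ‖∫ u : ℝ, F u * riemannZeta (1 / 2 + ln 4 u) * cexp ((ln 4 u - w) ^ 2 / (4 * τ))‖ ≤
      A * Z4 * Real.exp ((4 - w.re) ^ 2 / (4 * τ)) * Real.sqrt (8 * Real.pi * τ) := by
  have hZ := Z4_one
  refine (norm_integral_le_of_norm_le ((gauss8_int hτ w.im).const_mul
    (A * Z4 * Real.exp ((4 - w.re) ^ 2 / (4 * τ)))) (Eventually.of_forall fun u => ?_)).trans (le_of_eq ?_)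
  · rw [norm_mul, norm_mul, norm_gk]
    calc ‖F u‖ * ‖riemannZeta (1 / 2 + ln 4 u)‖ *
          Real.exp (((4 - w.re) ^ 2 - (u - w.im) ^ 2) / (4 * τ))
        ≤ (A * Real.exp ((u - w.im) ^ 2 / (8 * τ))) * Z4 *
          Real.exp (((4 - w.re) ^ 2 - (u - w.im) ^ 2) / (4 * τ)) := by
          gcongr
          · exact hF u
          · exact zeta4_norm u
      _ = A * Z4 * (Real.exp ((u - w.im) ^ 2 / (8 * τ)) *
          Real.exp (((4 - w.re) ^ 2 - (u - w.im) ^ 2) / (4 * τ))) := by ring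
      _ = A * Z4 * (Real.exp ((4 - w.re) ^ 2 / (4 * τ)) * Real.exp (-(u - w.im) ^ 2 / (8 * τ))) := by
          rw [← Real.exp_add, ← Real.exp_add]
          congr 2
          field_simp
          ring
      _ = _ := by ring
  · rw [integral_const_mul, gauss8 hτ]

lemma sqrt84 {τ : ℝ} (hτ : 0 < τ) : Real.sqrt (8 * Real.pi * τ) ≤ 2 * Real.sqrt (4 * Real.pi * τ) := by
  have hp := Real.pi_pos
  rw [show (2 : ℝ) = Real.sqrt 4 by
    rw [show (4 : ℝ) = 2 ^ 2 by norm_num, Real.sqrt_sq (by norm_num)], ← Real.sqrt_mul (by norm_num)]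
  apply Real.sqrt_le_sqrt
  nlinarith [mul_pos hp hτ]

lemma int_rt {τ : ℝ} (hτ : 0 < τ) {F : ℝ → ℂ} (hc : Continuous F) {A : ℝ} (w : ℂ)
    (hF : ∀ u, ‖F u‖ ≤ A * Real.exp ((u - w.im) ^ 2 / (8 * τ))) :
    Integrable (fun u : ℝ => F u * riemannZeta (1 / 2 + ln 4 u) * cexp ((ln 4 u - w) ^ 2 / (4 * τ))) := by
  have hZ := Z4_one
  refine Integrable.mono' ((gauss8_int hτ w.im).const_mul
    (A * Z4 * Real.exp ((4 - w.re) ^ 2 / (4 * τ)))) ?_ (Eventually.of_forall fun u => ?_)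
  · have h1 := zeta_cont4
    have h2 := ln_cont 4
    exact (by fun_prop : Continuous (fun u : ℝ => F u * riemannZeta (1 / 2 + ln 4 u) *
      cexp ((ln 4 u - w) ^ 2 / (4 * τ)))).aestronglyMeasurable
  · rw [norm_mul, norm_mul, norm_gk]
    calc ‖F u‖ * ‖riemannZeta (1 / 2 + ln 4 u)‖ *
          Real.exp (((4 - w.re) ^ 2 - (u - w.im) ^ 2) / (4 * τ))
        ≤ (A * Real.exp ((u - w.im) ^ 2 / (8 * τ))) * Z4 *
          Real.exp (((4 - w.re) ^ 2 - (u - w.im) ^ 2) / (4 * τ)) := by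
          have h0 : 0 ≤ A * Real.exp ((u - w.im) ^ 2 / (8 * τ)) := (norm_nonneg _).trans (hF u)
          gcongr
          · exact hF u
          · exact zeta4_norm u
      _ = A * Z4 * (Real.exp ((u - w.im) ^ 2 / (8 * τ)) *
          Real.exp (((4 - w.re) ^ 2 - (u - w.im) ^ 2) / (4 * τ))) := by ring
      _ = A * Z4 * (Real.exp ((4 - w.re) ^ 2 / (4 * τ)) * Real.exp (-(u - w.im) ^ 2 / (8 * τ))) := by
          rw [← Real.exp_add, ← Real.exp_add]
          congr 2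
          field_simp
          ring
      _ = _ := by ring

/-- the heat flow at negative times near height `x` -/
theorem Bx_bounds : ∃ K x0 : ℝ, 1 ≤ K ∧ 64 ≤ x0 ∧ ∀ x R τ : ℝ, x0 ≤ x → 0 ≤ R → R ≤ Real.sqrt x / 4 →
    0 < τ → τ ≤ 1 → ∀ w : ℂ, |w.im - x| ≤ R →
    ‖Bx τ x w - Dt τ (1 / 2 + w)‖ ≤ K * ((1 + R ^ 2) / x) * Real.exp ((4 - w.re) ^ 2 / (4 * τ)) ∧
    ‖Bx τ x w‖ ≤ K * Real.exp ((4 - w.re) ^ 2 / (4 * τ)) := by
  obtain ⟨K, x0, hK, hx0, h⟩ := rt_err
  have hZ := Z4_one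
  refine ⟨2 * (1 + 2 * K) * Z4, x0, by nlinarith, hx0, ?_⟩
  intro x R τ hx hR0 hR hτ hτ1 w hw
  have hxp : 0 < x := by linarith
  have hp := Real.pi_pos
  have hs : 0 < Real.sqrt (4 * Real.pi * τ) := Real.sqrt_pos.2 (by positivity)
  have h1 : ∀ u, ‖rt x u - 1‖ ≤ K * ((1 + R ^ 2) / x) * Real.exp ((u - w.im) ^ 2 / (8 * τ)) :=
    fun u => h x R w.im τ u hx hR0 hR hw hτ hτ1
  have hA : 0 ≤ K * ((1 + R ^ 2) / x) := by positivity
  have hRx : (1 + R ^ 2) / x ≤ 2 := by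
    rw [div_le_iff₀ hxp]
    have h2 : R ^ 2 ≤ (Real.sqrt x / 4) ^ 2 := by gcongr
    rw [div_pow, Real.sq_sqrt hxp.le] at h2
    linarith
  have h2 : ∀ u, ‖rt x u‖ ≤ (1 + 2 * K) * Real.exp ((u - w.im) ^ 2 / (8 * τ)) := by
    intro u
    have h3 : (1 : ℝ) ≤ Real.exp ((u - w.im) ^ 2 / (8 * τ)) := Real.one_le_exp (by positivity)
    calc ‖rt x u‖ = ‖(rt x u - 1) + 1‖ := by congr 1; ring
      _ ≤ ‖rt x u - 1‖ + ‖(1 : ℂ)‖ := norm_add_le _ _
      _ ≤ K * ((1 + R ^ 2) / x) * Real.exp ((u - w.im) ^ 2 / (8 * τ)) + 1 := by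
          rw [norm_one]; linarith [h1 u]
      _ ≤ K * 2 * Real.exp ((u - w.im) ^ 2 / (8 * τ)) + Real.exp ((u - w.im) ^ 2 / (8 * τ)) := by
          gcongr
      _ = _ := by ring
  have hsn : ‖(Real.sqrt (4 * Real.pi * τ) : ℂ)‖ = Real.sqrt (4 * Real.pi * τ) := by
    rw [Complex.norm_real, Real.norm_of_nonneg hs.le]
  have hE : 0 < Real.exp ((4 - w.re) ^ 2 / (4 * τ)) := Real.exp_pos _
  constructor
  · have h3 : (Real.sqrt (4 * Real.pi * τ) : ℂ) * (Bx τ x w - Dt τ (1 / 2 + w)) =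
        ∫ u : ℝ, (rt x u - 1) * riemannZeta (1 / 2 + ln 4 u) * cexp ((ln 4 u - w) ^ 2 / (4 * τ)) := by
      rw [mul_sub, ← Bx_int hτ (by linarith : 4 ≤ x), ← main_int hτ]
      rw [← integral_sub]
      · refine integral_congr_ae (Eventually.of_forall fun u => ?_)
        simp only
        ring
      · exact int_rt hτ (rt_cont x) w h2
      · have h4 := int_rt hτ (F := fun _ => 1) continuous_const (A := 1) w (fun u => by
          rw [norm_one, one_mul]; exact Real.one_le_exp (by positivity))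
        simpa using h4
    have h4 := gint_bound hτ hA w (F := fun u => rt x u - 1) h1
    rw [← h3, norm_mul, hsn] at h4
    have h5 := sqrt84 hτ
    have h6 : Real.sqrt (4 * Real.pi * τ) * ‖Bx τ x w - Dt τ (1 / 2 + w)‖ ≤
        Real.sqrt (4 * Real.pi * τ) * (2 * (K * ((1 + R ^ 2) / x)) * Z4 *
          Real.exp ((4 - w.re) ^ 2 / (4 * τ))) := by
      refine h4.trans ?_
      calc _ ≤ K * ((1 + R ^ 2) / x) * Z4 * Real.exp ((4 - w.re) ^ 2 / (4 * τ)) *
            (2 * Real.sqrt (4 * Real.pi * τ)) := by gcongr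
        _ = _ := by ring
    refine (le_of_mul_le_mul_left h6 hs).trans ?_
    have h7 : 0 ≤ (1 + R ^ 2) / x * Z4 * Real.exp ((4 - w.re) ^ 2 / (4 * τ)) := by positivity
    nlinarith
  · have h4 := gint_bound hτ (by linarith : 0 ≤ 1 + 2 * K) w (F := fun u => rt x u) h2
    rw [Bx_int hτ (by linarith : 4 ≤ x), norm_mul, hsn] at h4
    have h5 := sqrt84 hτ
    have h6 : Real.sqrt (4 * Real.pi * τ) * ‖Bx τ x w‖ ≤
        Real.sqrt (4 * Real.pi * τ) * (2 * (1 + 2 * K) * Z4 *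
          Real.exp ((4 - w.re) ^ 2 / (4 * τ))) := by
      refine h4.trans ?_
      calc _ ≤ (1 + 2 * K) * Z4 * Real.exp ((4 - w.re) ^ 2 / (4 * τ)) *
            (2 * Real.sqrt (4 * Real.pi * τ)) := by gcongr
        _ = _ := by ring
    exact le_of_mul_le_mul_left h6 hs

end Pool.Agent.Helper54.Nm
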