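import Pool.Agent.Helper54.Nm.A4

set_option autoImplicit false
set_option maxHeartbeats 1000000

/-!
The logarithmic derivative of the Dirichlet series: coefficients.
-/

open Complex MeasureTheory Set Filter Topology

namespace Pool.Agent.Helper54.Nm

open Pool.Agent.Helper54.Xm Pool.Agent.Helper54.Hf Pool.Agent.Helper54.Nt

lemma gc_norm {τ : ℝ} (hτ : 0 ≤ τ) (n : ℕ) : ‖gc τ n‖ ≤ 1 := by
  unfold gc
  rw [Complex.norm_real, Real.norm_of_nonneg (gt_pos _ _).le]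
  exact gt_le hτ n

lemma gc_one (τ : ℝ) : gc τ 1 = 1 := by simp [gc, gt]

/-- the coefficients as an arithmetic function -/
noncomputable def ga (τ : ℝ) : ArithmeticFunction ℂ := ⟨fun n => if n = 0 then 0 else gc τ n, by simp⟩

/-- the coefficients of the derivative -/
noncomputable def gl (τ : ℝ) : ArithmeticFunction ℂ :=
  ⟨fun n => if n = 0 then 0 else -(Complex.log n * gc τ n), by simp⟩

lemma ga_one (τ : ℝ) : ga τ 1 = 1 := by
  simp [ga, gc_one]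

/-- invertibility -/
noncomputable def gaInv (τ : ℝ) : Invertible (ga τ 1) := by
  rw [ga_one]; exact invertibleOne

/-- the coefficients of the logarithmic derivative -/
noncomputable def ge (τ : ℝ) : ArithmeticFunction ℂ :=
  gl τ * ArithmeticFunction.dirichletInverse (ga τ) (gaInv τ)

lemma ge_mul (τ : ℝ) : ge τ * ga τ = gl τ := by
  unfold ge
  rw [mul_assoc, ArithmeticFunction.dirichletInverse_mul_self, mul_one]

lemma ge_sum (τ : ℝ) (n : ℕ) : ∑ i ∈ n.divisors, ge τ (n / i) * ga τ i = gl τ n := by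
  rw [← ge_mul, ArithmeticFunction.mul_apply,
    Nat.sum_divisorsAntidiagonal' (fun x y => ge τ x * ga τ y)]

lemma ge_eq (τ : ℝ) {n : ℕ} (hn : n ≠ 0) :
    ge τ n = gl τ n - ∑ i ∈ n.divisors.erase 1, ge τ (n / i) * ga τ i := by
  have h := ge_sum τ n
  rw [← Finset.add_sum_erase _ _ (Nat.one_mem_divisors.2 hn)] at h
  rw [Nat.div_one, ga_one, mul_one] at h
  rw [← h]; ring

lemma gl_norm {τ : ℝ} (hτ : 0 ≤ τ) {n : ℕ} (hn : n ≠ 0) : ‖gl τ n‖ ≤ Real.log n := by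
  have e : gl τ n = -(Complex.log n * gc τ n) := by simp [gl, hn]
  rw [e, norm_neg, norm_mul, ← Complex.natCast_log, Complex.norm_real,
    Real.norm_of_nonneg (Real.log_natCast_nonneg n)]
  calc Real.log n * ‖gc τ n‖ ≤ Real.log n * 1 := by
        have := Real.log_natCast_nonneg n
        gcongr
        exact gc_norm hτ n
    _ = _ := mul_one _

lemma ga_norm {τ : ℝ} (hτ : 0 ≤ τ) (n : ℕ) : ‖ga τ n‖ ≤ 1 := by
  by_cases hn : n = 0
  · simp [hn]
  · have e : ga τ n = gc τ n := by simp [ga, hn]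
    rw [e]; exact gc_norm hτ n

lemma ge_zero (τ : ℝ) : ge τ 0 = 0 := by simp

theorem ge_norm {τ : ℝ} (hτ : 0 ≤ τ) (n : ℕ) : ‖ge τ n‖ ≤ 2 * (n : ℝ) ^ 3 := by
  induction n using Nat.strong_induction_on with
  | _ n ih =>
    rcases Nat.eq_zero_or_pos n with rfl | hn
    · simp
    have hnR : (1 : ℝ) ≤ n := by exact_mod_cast hn
    rw [ge_eq τ hn.ne']
    have h1 : ‖∑ i ∈ n.divisors.erase 1, ge τ (n / i) * ga τ i‖ ≤
        ∑ i ∈ n.divisors.erase 1, (n : ℝ) ^ 3 * ((i : ℝ) ^ 2)⁻¹ := by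
      refine (norm_sum_le _ _).trans (Finset.sum_le_sum fun i hi => ?_)
      rw [Finset.mem_erase, Nat.mem_divisors] at hi
      obtain ⟨hi1, hid, _⟩ := hi
      have hi0 : 0 < i := Nat.pos_of_dvd_of_pos hid hn
      have hi2 : 2 ≤ i := by omega
      have hlt : n / i < n := Nat.div_lt_self hn (by omega)
      have h2 := ih (n / i) hlt
      rw [norm_mul]
      have hiR : (2 : ℝ) ≤ i := by exact_mod_cast hi2
      have hc : ((n / i : ℕ) : ℝ) = (n : ℝ) / i := Nat.cast_div_charZero hid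
      rw [hc] at h2
      calc ‖ge τ (n / i)‖ * ‖ga τ i‖ ≤ 2 * ((n : ℝ) / i) ^ 3 * 1 :=
            mul_le_mul h2 (ga_norm hτ i) (norm_nonneg _) (by positivity)
        _ = (n : ℝ) ^ 3 * ((i : ℝ) ^ 2)⁻¹ * (2 / i) := by field_simp
        _ ≤ (n : ℝ) ^ 3 * ((i : ℝ) ^ 2)⁻¹ * 1 := by
            gcongr
            rw [div_le_one (by positivity)]; exact hiR
        _ = _ := mul_one _
    have h3 : ∑ i ∈ n.divisors.erase 1, (n : ℝ) ^ 3 * ((i : ℝ) ^ 2)⁻¹ ≤ (n : ℝ) ^ 3 := by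
      have h4 : ∑ i ∈ n.divisors.erase 1, ((i : ℝ) ^ 2)⁻¹ ≤ ∑ i ∈ Finset.Ioc 1 n, ((i : ℝ) ^ 2)⁻¹ := by
        refine Finset.sum_le_sum_of_subset_of_nonneg ?_ (fun _ _ _ => by positivity)
        intro i hi
        rw [Finset.mem_erase, Nat.mem_divisors] at hi
        obtain ⟨hi1, hid, _⟩ := hi
        have hi0 : 0 < i := Nat.pos_of_dvd_of_pos hid hn
        rw [Finset.mem_Ioc]
        exact ⟨by omega, Nat.le_of_dvd hn hid⟩
      have h5 := sum_Ioc_inv_sq_le_sub (α := ℝ) (k := 1) (n := n) one_ne_zero hn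
      rw [← Finset.mul_sum]
      have h6 : ∑ i ∈ n.divisors.erase 1, ((i : ℝ) ^ 2)⁻¹ ≤ 1 := by
        refine (h4.trans h5).trans ?_
        simp
      calc (n : ℝ) ^ 3 * ∑ i ∈ n.divisors.erase 1, ((i : ℝ) ^ 2)⁻¹ ≤ (n : ℝ) ^ 3 * 1 := by gcongr
        _ = _ := mul_one _
    have h7 : Real.log n ≤ (n : ℝ) ^ 3 := by
      have h8 := Real.log_le_sub_one_of_pos (by linarith : (0:ℝ) < n)
      have h9 : (n : ℝ) ≤ (n : ℝ) ^ 3 := le_self_pow₀ hnR (by norm_num)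
      linarith
    calc _ ≤ ‖gl τ n‖ + ‖∑ i ∈ n.divisors.erase 1, ge τ (n / i) * ga τ i‖ := norm_sub_le _ _
      _ ≤ Real.log n + (n : ℝ) ^ 3 := add_le_add (gl_norm hτ hn.ne') (h1.trans h3)
      _ ≤ _ := by linarith

lemma ge_one (τ : ℝ) : ge τ 1 = 0 := by
  rw [ge_eq τ one_ne_zero]
  simp [gl]

lemma ge_prime (τ : ℝ) {p : ℕ} (hp : p.Prime) : ge τ p = -(((Real.log p * gt τ p : ℝ) : ℂ)) := by
  rw [ge_eq τ hp.ne_zero]
  have h1 : p.divisors.erase 1 = {p} := by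
    rw [hp.divisors]
    ext i
    simp only [Finset.mem_erase, Finset.mem_insert, Finset.mem_singleton]
    constructor
    · rintro ⟨a, b | b⟩
      · exact absurd b a
      · exact b
    · rintro rfl
      exact ⟨hp.one_lt.ne', Or.inr rfl⟩
  rw [h1, Finset.sum_singleton, Nat.div_self hp.pos, ge_one, zero_mul, sub_zero]
  have e : gl τ p = -(Complex.log p * gc τ p) := by simp [gl, hp.ne_zero]
  rw [e, ← Complex.natCast_log]
  unfold gc
  push_cast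
  ring

/-- the constant `2 ζ(3/2)` -/
noncomputable def Ce : ℝ := ∑' n : ℕ, 2 * (1 / (n : ℝ) ^ (3 / 2 : ℝ))

lemma Ce_sum : Summable (fun n : ℕ => 2 * (1 / (n : ℝ) ^ (3 / 2 : ℝ))) :=
  (Real.summable_one_div_nat_rpow.2 (by norm_num)).mul_left 2

lemma Ce_nonneg : 0 ≤ Ce := tsum_nonneg fun n => by positivity

lemma ge_term {τ : ℝ} (hτ : 0 ≤ τ) {s : ℂ} (hs : s.re = 9 / 2) (n : ℕ) :
    ‖LSeries.term (ge τ) s n‖ ≤ 2 * (1 / (n : ℝ) ^ (3 / 2 : ℝ)) := by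
  rcases Nat.eq_zero_or_pos n with rfl | hn
  · rw [LSeries.term_zero, norm_zero]; positivity
  rw [LSeries.norm_term_eq, if_neg hn.ne', hs]
  have hn0 : (0 : ℝ) < n := by exact_mod_cast hn
  have h1 : (n : ℝ) ^ (9 / 2 : ℝ) = (n : ℝ) ^ 3 * (n : ℝ) ^ (3 / 2 : ℝ) := by
    rw [← Real.rpow_natCast, ← Real.rpow_add hn0]; norm_num
  rw [h1, div_le_iff₀ (by positivity)]
  calc ‖ge τ n‖ ≤ 2 * (n : ℝ) ^ 3 := ge_norm hτ n
    _ = _ := by field_simp

lemma ge_summ {τ : ℝ} (hτ : 0 ≤ τ) {s : ℂ} (hs : s.re = 9 / 2) : LSeriesSummable (ge τ) s :=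
  Summable.of_norm_bounded Ce_sum (ge_term hτ hs)

/-- the series of the logarithmic derivative -/
noncomputable def De (τ : ℝ) (s : ℂ) : ℂ := LSeries (ge τ) s

lemma De_norm {τ : ℝ} (hτ : 0 ≤ τ) {s : ℂ} (hs : s.re = 9 / 2) : ‖De τ s‖ ≤ Ce := by
  unfold De LSeries
  exact tsum_of_norm_bounded Ce_sum.hasSum (ge_term hτ hs)

lemma absc {τ : ℝ} (hτ : 0 ≤ τ) : LSeries.abscissaOfAbsConv (gc τ) ≤ 1 :=
  LSeries.abscissaOfAbsConv_le_of_le_const ⟨1, fun n _ => gc_norm hτ n⟩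

lemma absc_lt {τ : ℝ} (hτ : 0 ≤ τ) {s : ℂ} (hs : 1 < s.re) :
    LSeries.abscissaOfAbsConv (gc τ) < s.re :=
  (absc hτ).trans_lt (by exact_mod_cast hs)

lemma Dt_diff {τ : ℝ} (hτ : 0 ≤ τ) {s : ℂ} (hs : 1 < s.re) : DifferentiableAt ℂ (Dt τ) s :=
  (LSeries_hasDerivAt (absc_lt hτ hs)).differentiableAt

lemma ga_L (τ : ℝ) (s : ℂ) : LSeries (ga τ) s = Dt τ s := by
  unfold Dt
  refine LSeries_congr (fun {n} hn => ?_) s
  simp [ga, hn]

lemma gl_L {τ : ℝ} (s : ℂ) : LSeries (gl τ) s = -LSeries (LSeries.logMul (gc τ)) s := by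
  rw [← LSeries_neg]
  refine LSeries_congr (fun {n} hn => ?_) s
  simp [gl, hn, LSeries.logMul]

theorem De_mul {τ : ℝ} (hτ : 0 ≤ τ) {s : ℂ} (hs : s.re = 9 / 2) :
    deriv (Dt τ) s = De τ s * Dt τ s := by
  have h1 : deriv (Dt τ) s = LSeries (gl τ) s := by
    rw [gl_L]
    exact LSeries_deriv (absc_lt hτ (by rw [hs]; norm_num))
  have h2 : LSeriesSummable (ga τ) s := by
    have h3 : LSeriesSummable (gc τ) s :=
      LSeriesSummable_of_abscissaOfAbsConv_lt_re (absc_lt hτ (by rw [hs]; norm_num))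
    refine (LSeriesSummable_congr s (fun {n} hn => ?_)).1 h3
    simp [ga, hn]
  rw [h1, ← ge_mul, ArithmeticFunction.LSeries_mul' (ge_summ hτ hs) h2, ga_L]
  rfl

theorem Dt_near {τ : ℝ} (hτ : 0 ≤ τ) {s : ℂ} (hs : s.re = 9 / 2) : ‖Dt τ s - 1‖ ≤ 1 / 4 := by
  have h3 : LSeriesSummable (gc τ) s :=
      LSeriesSummable_of_abscissaOfAbsConv_lt_re (absc_lt hτ (by rw [hs]; norm_num))
  have h4 : Dt τ s = LSeries.term (gc τ) s 1 + ∑' n, (if n = 1 then 0 else LSeries.term (gc τ) s n) :=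
    Summable.tsum_eq_add_tsum_ite h3 1
  have h5 : LSeries.term (gc τ) s 1 = 1 := by
    rw [LSeries.term_of_ne_zero one_ne_zero, gc_one]; simp
  have hz := hasSum_zeta_two
  have h6 : HasSum (fun n : ℕ => if n = 1 then (0:ℝ) else 1 / (n : ℝ) ^ 2) (Real.pi ^ 2 / 6 - 1) := by
    have h7 := hz.update 1 0
    have e : (0 : ℝ) - 1 / ((1 : ℕ) : ℝ) ^ 2 + Real.pi ^ 2 / 6 = Real.pi ^ 2 / 6 - 1 := by norm_num; ring
    rw [e] at h7
    refine h7.congr_fun ?_ |> fun h => h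
    intro n
    by_cases hn : n = 1
    · subst hn; simp
    · simp [Function.update_of_ne hn, hn]
  have h8 : ‖∑' n, (if n = 1 then 0 else LSeries.term (gc τ) s n)‖ ≤ 1 / 4 * (Real.pi ^ 2 / 6 - 1) := by
    refine tsum_of_norm_bounded (h6.mul_left (1 / 4)) fun n => ?_
    split_ifs with hn
    · simp
    rcases Nat.eq_zero_or_pos n with rfl | hn0
    · simp
    rw [LSeries.norm_term_eq, if_neg hn0.ne', hs]
    have hn2 : 2 ≤ n := by omega
    have hnR : (2 : ℝ) ≤ n := by exact_mod_cast hn2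
    have h9 : (n : ℝ) ^ (4 : ℕ) ≤ (n : ℝ) ^ (9 / 2 : ℝ) := by
      rw [← Real.rpow_natCast]
      exact Real.rpow_le_rpow_of_exponent_le (by linarith) (by norm_num)
    have h10 : 4 * (n : ℝ) ^ 2 ≤ (n : ℝ) ^ 4 := by
      have h11 : (2 : ℝ) ^ 2 ≤ (n : ℝ) ^ 2 := by gcongr
      nlinarith [sq_nonneg (n : ℝ)]
    calc ‖gc τ n‖ / (n : ℝ) ^ (9 / 2 : ℝ) ≤ 1 / (4 * (n : ℝ) ^ 2) := by
          gcongr
          · exact gc_norm hτ n
          · exact h10.trans h9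
      _ = _ := by field_simp
  rw [h4, h5, add_sub_cancel_left]
  refine h8.trans ?_
  have hpi := Real.pi_lt_d2
  have hpi0 := Real.pi_pos
  nlinarith

end Pool.Agent.Helper54.Nm
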