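import Pool.Agent.Helper54.Nm.A5
import Pool.Agent.Helper54.Nm.A1

set_option autoImplicit false
set_option maxHeartbeats 1000000

/-!
The logarithmic derivative of the heat flow far to the right, and its bound under zero-freeness.
-/

open Complex MeasureTheory Set Filter Topology Metric

namespace Pool.Agent.Helper54.Nm

open Pool.Agent.Helper54.Xm Pool.Agent.Helper54.Hf Pool.Agent.Helper54.Nt

lemma Bx_diff {τ : ℝ} (hτ : 0 < τ) {x : ℝ} (hx : 4 ≤ x) : Differentiable ℂ (Bx τ x) := by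
  have h1 : Differentiable ℂ (Hx (-τ)) := Hx_diff (by linarith)
  have hG := Gx1_ne hx
  intro w
  unfold Bx
  have h2 : DifferentiableAt ℂ (fun w : ℂ => Hx (-τ) (w + 2 * τ * logDeriv Gx (ln 1 x))) w :=
    DifferentiableAt.comp (g := Hx (-τ)) w (h1 _) (by fun_prop)
  refine h2.div (by fun_prop) (mul_ne_zero hG (Complex.exp_ne_zero _))

/-- the estimates on the line `Re w = 4` -/
theorem line4 : ∃ K x0 : ℝ, 1 ≤ K ∧ 64 ≤ x0 ∧ ∀ x R τ : ℝ, x0 ≤ x → 0 ≤ R → R + 1 ≤ Real.sqrt x / 4 →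
    0 < τ → τ ≤ 1 → K * ((1 + (R + 1) ^ 2) / x) ≤ 1 → ∀ w : ℂ, w.re = 4 → |w.im - x| ≤ R →
    1 / 2 ≤ ‖Bx τ x w‖ ∧
    ‖logDeriv (Bx τ x) w - De τ (1 / 2 + w)‖ ≤ K * ((1 + (R + 1) ^ 2) / x) / Real.sqrt τ := by
  obtain ⟨K, x0, hK, hx0, h⟩ := Bx_bounds
  have hCe := Ce_nonneg
  refine ⟨8 * K * (1 + Ce), x0, by nlinarith, hx0, ?_⟩
  intro x R τ hx hR0 hR hτ hτ1 hE w hw hwx
  have hxp : 0 < x := by linarith
  set E : ℝ := K * ((1 + (R + 1) ^ 2) / x) with hEdef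
  have hE0 : 0 ≤ E := by positivity
  have hE1 : 8 * (1 + Ce) * E ≤ 1 := by
    rw [hEdef]; linarith
  have hE2 : 8 * E ≤ 1 := by nlinarith
  have hsτ : 0 < Real.sqrt τ := Real.sqrt_pos.2 hτ
  have hsτ1 : Real.sqrt τ ≤ 1 := Real.sqrt_le_one.2 hτ1 
  have hsq : Real.sqrt τ ^ 2 = τ := Real.sq_sqrt hτ.le
  -- the error on the small disc
  have hg : ∀ z ∈ closedBall w (Real.sqrt τ), ‖Bx τ x z - Dt τ (1 / 2 + z)‖ ≤ 2 * E := by
    intro z hz
    rw [mem_closedBall, dist_eq_norm] at hz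
    have h1 := (Complex.abs_re_le_norm (z - w)).trans hz
    have h2 := (Complex.abs_im_le_norm (z - w)).trans hz
    rw [Complex.sub_re, hw] at h1
    rw [Complex.sub_im] at h2
    have h3 : |z.im - x| ≤ R + 1 := by
      calc |z.im - x| = |(z.im - w.im) + (w.im - x)| := by congr 1; ring
        _ ≤ |z.im - w.im| + |w.im - x| := abs_add_le _ _
        _ ≤ _ := by linarith
    have h4 := (h x (R + 1) τ hx (by linarith) hR hτ hτ1 z h3).1
    have h5 : (4 - z.re) ^ 2 / (4 * τ) ≤ 1 / 4 := by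
      have h6 : (4 - z.re) ^ 2 ≤ τ := by
        rw [← hsq, ← sq_abs]
        rw [abs_sub_comm] at h1
        gcongr
      rw [div_le_iff₀ (by positivity)]
      linarith
    have h7 : Real.exp ((4 - z.re) ^ 2 / (4 * τ)) ≤ 2 := by
      refine (Real.exp_le_exp.2 h5).trans ?_
      have := Real.exp_one_lt_d9
      have h8 : Real.exp (1 / 4) ≤ Real.exp (1 / 2) := Real.exp_le_exp.2 (by norm_num)
      have h9 : Real.exp (1 / 2) ^ 2 = Real.exp 1 := by
        rw [← Real.exp_nat_mul]; norm_num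
      have h10 : 0 < Real.exp (1 / 2) := Real.exp_pos _
      nlinarith
    calc _ ≤ E * Real.exp ((4 - z.re) ^ 2 / (4 * τ)) := h4
      _ ≤ E * 2 := by gcongr
      _ = _ := by ring
  have hsre : (1 / 2 + w).re = 9 / 2 := by rw [Complex.add_re, hw]; norm_num
  have hBD : ‖Bx τ x w - Dt τ (1 / 2 + w)‖ ≤ 2 * E := hg w (mem_closedBall_self hsτ.le)
  have hD := Dt_near hτ.le hsre
  have hB : 1 / 2 ≤ ‖Bx τ x w‖ := by
    have h1 : (1 : ℂ) = Bx τ x w - (Bx τ x w - Dt τ (1 / 2 + w)) - (Dt τ (1 / 2 + w) - 1) := by ring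
    have h2 : ‖(1 : ℂ)‖ ≤ ‖Bx τ x w‖ + ‖Bx τ x w - Dt τ (1 / 2 + w)‖ + ‖Dt τ (1 / 2 + w) - 1‖ := by
      conv_lhs => rw [h1]
      exact (norm_sub_le _ _).trans (add_le_add (norm_sub_le _ _) le_rfl)
    rw [norm_one] at h2
    linarith
  refine ⟨hB, ?_⟩
  -- the derivative of the error
  have hgd : ∀ z ∈ closedBall w (Real.sqrt τ), DifferentiableAt ℂ (fun z => Bx τ x z - Dt τ (1 / 2 + z)) z := by
    intro z hz
    rw [mem_closedBall, dist_eq_norm] at hz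
    have h1 := (Complex.abs_re_le_norm (z - w)).trans hz
    rw [Complex.sub_re, hw] at h1
    have h2 : 1 < (1 / 2 + z).re := by
      rw [Complex.add_re]
      have := (abs_le.1 h1).1
      norm_num
      linarith
    have h3 : DifferentiableAt ℂ (fun z : ℂ => Dt τ (1 / 2 + z)) z :=
      DifferentiableAt.comp (g := Dt τ) z (Dt_diff hτ.le h2) (by fun_prop)
    exact (Bx_diff hτ (by linarith) z).sub h3
  have hder : ‖deriv (fun z => Bx τ x z - Dt τ (1 / 2 + z)) w‖ ≤ 2 * E / Real.sqrt τ := by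
    refine Complex.norm_deriv_le_of_forall_mem_sphere_norm_le hsτ ?_ ?_
    · refine DifferentiableOn.diffContOnCl ?_
      intro z hz
      exact (hgd z (closure_ball_subset_closedBall hz)).differentiableWithinAt
    · intro z hz
      exact hg z (sphere_subset_closedBall hz)
  have hder2 : deriv (fun z => Bx τ x z - Dt τ (1 / 2 + z)) w =
      deriv (Bx τ x) w - De τ (1 / 2 + w) * Dt τ (1 / 2 + w) := by
    rw [← De_mul hτ.le hsre]
    have h2 : 1 < (1 / 2 + w).re := by rw [hsre]; norm_num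
    have h3 : HasDerivAt (fun z : ℂ => Dt τ (1 / 2 + z)) (deriv (Dt τ) (1 / 2 + w)) w := by
      have h5 : HasDerivAt (fun z : ℂ => 1 / 2 + z) 1 w := (hasDerivAt_id w).const_add (1 / 2)
      have h4 := HasDerivAt.comp (h₂ := Dt τ) (h := fun z : ℂ => 1 / 2 + z) w
        (Dt_diff hτ.le h2).hasDerivAt h5
      rw [mul_one] at h4
      exact h4
    exact ((Bx_diff hτ (by linarith) w).hasDerivAt.sub h3).deriv
  rw [hder2] at hder
  have hBne : Bx τ x w ≠ 0 := by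
    intro h0
    rw [h0, norm_zero] at hB
    norm_num at hB
  have e1 : logDeriv (Bx τ x) w - De τ (1 / 2 + w) =
      ((deriv (Bx τ x) w - De τ (1 / 2 + w) * Dt τ (1 / 2 + w)) -
        De τ (1 / 2 + w) * (Bx τ x w - Dt τ (1 / 2 + w))) / Bx τ x w := by
    rw [logDeriv_apply]
    field_simp
    ring
  have hDe := De_norm hτ.le hsre
  rw [e1, norm_div, div_le_iff₀ (by linarith)]
  have h1 : 2 * E ≤ 2 * E / Real.sqrt τ := by
    rw [le_div_iff₀ hsτ]; nlinarith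
  calc _ ≤ ‖deriv (Bx τ x) w - De τ (1 / 2 + w) * Dt τ (1 / 2 + w)‖ +
        ‖De τ (1 / 2 + w) * (Bx τ x w - Dt τ (1 / 2 + w))‖ := norm_sub_le _ _
    _ ≤ 2 * E / Real.sqrt τ + Ce * (2 * E / Real.sqrt τ) := by
        rw [norm_mul]
        refine add_le_add hder ?_
        exact mul_le_mul hDe (hBD.trans h1) (norm_nonneg _) hCe
    _ = 8 * (1 + Ce) * E / Real.sqrt τ * (1 / 4) := by ring
    _ ≤ 8 * (1 + Ce) * E / Real.sqrt τ * ‖Bx τ x w‖ := by
        gcongr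
        linarith
    _ = _ := by rw [hEdef]; ring

/-- the bound for the logarithmic derivative if there are no zeros -/
theorem sup_bound : ∃ K x0 : ℝ, 1 ≤ K ∧ 64 ≤ x0 ∧ ∀ x R τ Λ : ℝ, x0 ≤ x → 0 ≤ R →
    R + 4 + Λ ≤ Real.sqrt x / 4 → 0 < τ → τ ≤ 1 → 0 < Λ → K * ((1 + (R + 1) ^ 2) / x) ≤ 1 →
    (∀ w : ℂ, -Λ < w.re → |w.im - x| < R + 4 + Λ → Bx τ x w ≠ 0) →
    ∀ w : ℂ, -(3 / 4 * Λ) ≤ w.re → w.re ≤ 4 → |w.im - x| ≤ R →
    ‖logDeriv (Bx τ x) w‖ ≤ 128 * (K + (4 + Λ) ^ 2 / (4 * τ)) * (4 + Λ) / Λ ^ 2 := by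
  obtain ⟨K1, x1, hK1, hx1, h1⟩ := Bx_bounds
  obtain ⟨K2, x2, hK2, hx2, h2⟩ := line4
  have hlog : 0 ≤ Real.log (2 * K1) := Real.log_nonneg (by linarith)
  refine ⟨Real.log (2 * K1) + K2, max x1 x2, by linarith, hx1.trans (le_max_left _ _), ?_⟩
  intro x R τ Λ hx hR0 hR hτ hτ1 hΛ hE hz w hw1 hw2 hwx
  have hxx1 : x1 ≤ x := (le_max_left _ _).trans hx
  have hxx2 : x2 ≤ x := (le_max_right _ _).trans hx
  have hxp : 0 < x := by linarith
  have hE2 : K2 * ((1 + (R + 1) ^ 2) / x) ≤ 1 := by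
    have : 0 ≤ Real.log (2 * K1) * ((1 + (R + 1) ^ 2) / x) := by positivity
    linarith
  set c : ℂ := ⟨4, w.im⟩ with hc
  have hcB := (h2 x R τ hxx2 hR0 (by linarith) hτ hτ1 hE2 c rfl (by simpa [hc] using hwx)).1
  have hMpos : 0 < Real.log (2 * K1) + K2 + (4 + Λ) ^ 2 / (4 * τ) := by positivity
  have hgeo : ∀ z ∈ ball c (4 + Λ), -Λ < z.re ∧ |4 - z.re| < 4 + Λ ∧ |z.im - x| < R + 4 + Λ := by
    intro z hz
    rw [mem_ball, dist_eq_norm] at hz
    have a1 := (Complex.abs_re_le_norm (z - c)).trans_lt hz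
    have a2 := (Complex.abs_im_le_norm (z - c)).trans_lt hz
    rw [Complex.sub_re] at a1
    rw [Complex.sub_im] at a2
    simp only [hc] at a1 a2
    refine ⟨by linarith [(abs_lt.1 a1).1], by rwa [abs_sub_comm], ?_⟩
    calc |z.im - x| = |(z.im - w.im) + (w.im - x)| := by congr 1; ring
      _ ≤ |z.im - w.im| + |w.im - x| := abs_add_le _ _
      _ < _ := by linarith
  have hfin := ld_bound (H := Bx τ x) (c := c) (R := 4 + Λ)
    (M := Real.log (2 * K1) + K2 + (4 + Λ) ^ 2 / (4 * τ)) (ρ := Λ / 4) hMpos (by positivity)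
    (Bx_diff hτ (by linarith)).differentiableOn
    (fun z hz' => hz z (hgeo z hz').1 (hgeo z hz').2.2) (by
      intro z hz'
      obtain ⟨a1, a2, a3⟩ := hgeo z hz'
      have a4 := (h1 x (R + 4 + Λ) τ hxx1 (by linarith) hR hτ hτ1 z a3.le).2
      have a5 : (4 - z.re) ^ 2 / (4 * τ) ≤ (4 + Λ) ^ 2 / (4 * τ) := by
        have : (4 - z.re) ^ 2 ≤ (4 + Λ) ^ 2 := by rw [← sq_abs]; gcongr
        gcongr
      calc ‖Bx τ x z‖ ≤ K1 * Real.exp ((4 - z.re) ^ 2 / (4 * τ)) := a4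
        _ ≤ K1 * Real.exp ((4 + Λ) ^ 2 / (4 * τ)) := by gcongr
        _ = 1 / 2 * (Real.exp (Real.log (2 * K1)) * Real.exp ((4 + Λ) ^ 2 / (4 * τ))) := by
            rw [Real.exp_log (by linarith)]; ring
        _ ≤ ‖Bx τ x c‖ * Real.exp (Real.log (2 * K1) + K2 + (4 + Λ) ^ 2 / (4 * τ)) := by
            rw [← Real.exp_add]
            refine mul_le_mul hcB (Real.exp_le_exp.2 (by linarith)) (Real.exp_pos _).le (norm_nonneg _))
    (z := w) (by
      have e : w - c = ((w.re - 4 : ℝ) : ℂ) := by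
        apply Complex.ext <;> simp [hc]
      rw [e, Complex.norm_real, Real.norm_eq_abs, abs_of_nonpos (by linarith)]
      linarith)
  refine hfin.trans (le_of_eq ?_)
  field_simp
  ring

end Pool.Agent.Helper54.Nm
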