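import Pool.Agent.Helper54.Nm.A1
import Pool.Graph.R_seed8.H370R2.Local

set_option autoImplicit false
set_option maxHeartbeats 1000000

/-!
A one-sided bound for the logarithmic derivative to the right of all zeros.
-/

open Complex MeasureTheory Set Filter Topology Metric

namespace Pool.Agent.Helper54.Nm

open H370.Loc

lemma Pf_re {s : Multiset ℂ} {z : ℂ} {b : ℝ} (hz : b < z.re) (h : ∀ ρ ∈ s, ρ.re ≤ b) :
    Pf s z ≠ 0 ∧ 0 ≤ (logDeriv (Pf s) z).re := by
  induction s using Multiset.induction_on with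
  | empty =>
    have : Pf 0 = fun _ => (1 : ℂ) := by funext z; exact Pf_zero z
    rw [this]
    constructor
    · norm_num
    · simp [logDeriv_apply]
  | cons ρ s ih =>
    obtain ⟨h1, h2⟩ := ih fun ρ' h' => h ρ' (Multiset.mem_cons_of_mem h')
    have h3 := h ρ (Multiset.mem_cons_self ρ s)
    have h4 : z - ρ ≠ 0 := by
      intro h5
      have := congrArg Complex.re h5
      rw [Complex.sub_re, Complex.zero_re] at this
      linarith
    have e : Pf (ρ ::ₘ s) = fun z => (z - ρ) * Pf s z := by funext z; exact Pf_cons ρ s z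
    rw [e]
    refine ⟨mul_ne_zero h4 h1, ?_⟩
    have h6 : logDeriv (fun z => (z - ρ) * Pf s z) z = logDeriv (fun z => z - ρ) z + logDeriv (Pf s) z :=
      logDeriv_mul z h4 h1 (by fun_prop) (Pf_diff s z)
    rw [h6, Complex.add_re]
    have h7 : logDeriv (fun z => z - ρ) z = (z - ρ)⁻¹ := by
      rw [logDeriv_apply]
      have : deriv (fun z => z - ρ) z = 1 := by
        exact ((hasDerivAt_id z).sub_const ρ).deriv
      rw [this, one_div]
    rw [h7, Complex.inv_re]
    have h8 : 0 ≤ (z - ρ).re / Complex.normSq (z - ρ) := by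
      apply div_nonneg _ (Complex.normSq_nonneg _)
      rw [Complex.sub_re]; linarith
    linarith

/-- lower bound for the real part of the logarithmic derivative to the right of all zeros -/
theorem re_ld {f : ℂ → ℂ} {c : ℂ} {r M b : ℝ} (hr : 1 < r) (hM : 0 < M)
    (hf : Differentiable ℂ f) (hc : f c ≠ 0)
    (hb : ∀ z ∈ closedBall c (2 * r), ‖f z‖ ≤ ‖f c‖ * Real.exp M)
    (hz0 : ∀ ρ ∈ closedBall c r, f ρ = 0 → ρ.re ≤ b) {z : ℂ} (hz : ‖z - c‖ ≤ r - 1)
    (hzb : b < z.re) :
    -(8 * M * r) ≤ (logDeriv f z).re := by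
  have hfc : 0 < ‖f c‖ := norm_pos_iff.2 hc
  have hfa : AnalyticOnNhd ℂ f (closedBall c (2 * r)) := fun z _ => hf.analyticAt z
  -- scale so that the bound is at least one
  have hf2 : Differentiable ℂ (fun z => f z / f c) := hf.div_const _
  have hext := extract (f := fun z => f z / f c) (c := c) (r := r) (R := 2 * r) (M := Real.exp M)
    (by linarith) (by linarith) (Real.one_le_exp hM.le) (fun z _ => hf2.analyticAt z)
    (by simp [hc]) (by
      intro z hz
      rw [norm_div, div_le_iff₀ hfc, mul_comm]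
      exact hb z hz)
  obtain ⟨s, g, hs, hga, hfg, hg0, -⟩ := hext
  have hfg' : ∀ z, f z = Pf s z * (f c * g z) := by
    intro z
    have := hfg z
    rw [div_eq_iff hc] at this
    rw [this]; ring
  have hcm : c ∈ closedBall c r := mem_closedBall_self (by linarith)
  have hcm2 : c ∈ closedBall c (2 * r) := mem_closedBall_self (by linarith)
  set n := Multiset.card s with hn
  have hrn : 0 < r ^ n := by positivity
  -- the size of `g`
  have hPc : ‖Pf s c‖ ≤ r ^ n := Pf_norm_le fun ρ hρ => by
    have := (hs ρ hρ).1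
    rw [mem_closedBall, dist_eq_norm] at this
    rwa [norm_sub_rev]
  have hgc : 1 / r ^ n ≤ ‖g c‖ := by
    have h1 := hfg c
    rw [div_self hc] at h1
    have h2 : 1 = ‖Pf s c‖ * ‖g c‖ := by rw [← norm_mul, ← h1, norm_one]
    rw [div_le_iff₀ hrn]
    calc (1 : ℝ) = ‖Pf s c‖ * ‖g c‖ := h2
      _ ≤ r ^ n * ‖g c‖ := by gcongr
      _ = _ := mul_comm _ _
  have hgs : ∀ w ∈ sphere c (2 * r), ‖g w‖ ≤ Real.exp M / r ^ n := by
    intro w hw
    have h1 : r ^ n ≤ ‖Pf s w‖ := Pf_norm_ge (by linarith) fun ρ hρ => by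
      have h2 := (hs ρ hρ).1
      rw [mem_closedBall, dist_eq_norm] at h2
      rw [mem_sphere, dist_eq_norm] at hw
      have h3 : ‖w - c‖ ≤ ‖w - ρ‖ + ‖ρ - c‖ := by
        calc ‖w - c‖ = ‖(w - ρ) + (ρ - c)‖ := by congr 1; ring
          _ ≤ _ := norm_add_le _ _
      linarith
    rw [le_div_iff₀ hrn]
    have h4 := hb w (sphere_subset_closedBall hw)
    have h5 : ‖f w / f c‖ ≤ Real.exp M := by
      rw [norm_div, div_le_iff₀ hfc, mul_comm]; exact h4
    have h6 := hfg w
    rw [h6, norm_mul] at h5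
    calc ‖g w‖ * r ^ n ≤ ‖g w‖ * ‖Pf s w‖ := by gcongr
      _ = ‖Pf s w‖ * ‖g w‖ := mul_comm _ _
      _ ≤ _ := h5
  have hgb : ∀ w ∈ closedBall c (2 * r), ‖g w‖ ≤ Real.exp M / r ^ n := by
    intro w hw
    refine Complex.norm_le_of_forall_mem_frontier_norm_le (U := ball c (2 * r)) isBounded_ball ?_ ?_ ?_
    · refine DifferentiableOn.diffContOnCl ?_
      rw [closure_ball c (by linarith)]
      exact hga.differentiableOn
    · intro w' hw'
      rw [frontier_ball c (by linarith)] at hw'
      exact hgs w' hw'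
    · rw [closure_ball c (by linarith)]; exact hw
  -- zero-free part
  have hld := ld_bound (H := g) (c := c) (R := r) (M := M) (ρ := 1) hM one_pos
    (hga.differentiableOn.mono (ball_subset_closedBall.trans (closedBall_subset_closedBall (by linarith))))
    (fun w hw => hg0 w (ball_subset_closedBall hw)) (by
      intro w hw
      refine (hgb w (closedBall_subset_closedBall (by linarith) (ball_subset_closedBall hw))).trans ?_
      calc Real.exp M / r ^ n = 1 / r ^ n * Real.exp M := by ring
        _ ≤ _ := by gcongr) hz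
  have hzm : z ∈ closedBall c r := by rw [mem_closedBall, dist_eq_norm]; linarith
  have hzm2 : z ∈ closedBall c (2 * r) := closedBall_subset_closedBall (by linarith) hzm
  obtain ⟨hP1, hP2⟩ := Pf_re (s := s) hzb fun ρ hρ => by
    obtain ⟨h1, h2⟩ := hs ρ hρ
    refine hz0 ρ h1 ?_
    simpa [hc] using h2
  have hgz : g z ≠ 0 := hg0 z hzm
  have hgd : DifferentiableAt ℂ g z := (hga z hzm2).differentiableAt
  have e1 : f = fun z => Pf s z * (f c * g z) := by funext z; exact hfg' z
  have e2 : logDeriv f z = logDeriv (Pf s) z + logDeriv g z := by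
    have h1 : logDeriv (fun z => Pf s z * (f c * g z)) z =
        logDeriv (Pf s) z + logDeriv (fun z => f c * g z) z :=
      logDeriv_mul z hP1 (mul_ne_zero hc hgz) (Pf_diff s z) (hgd.const_mul _)
    have h2 : logDeriv (fun z => f c * g z) z = logDeriv g z := logDeriv_const_mul z (f c) hc
    rw [← h2, ← h1]
    exact congrArg (fun F => logDeriv F z) e1
  rw [e2, Complex.add_re]
  have h3 : -‖logDeriv g z‖ ≤ (logDeriv g z).re := (abs_le.1 (Complex.abs_re_le_norm _)).1
  have h4 : 8 * M * r / 1 ^ 2 = 8 * M * r := by norm_num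
  rw [h4] at hld
  linarith

end Pool.Agent.Helper54.Nm
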