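import Pool.Agent.Helper54.Nm.C1
import Pool.Agent.Helper54.Nm.A6
import Pool.Agent.Helper54.Hf.R2

set_option autoImplicit false
set_option maxHeartbeats 1000000

/-!
To the right of all zeros the real part of the logarithmic derivative is at least `- K log x`.
-/

open Complex MeasureTheory Set Filter Topology Metric

namespace Pool.Agent.Helper54.Nm

open Pool.Agent.Helper54.Xm Pool.Agent.Helper54.Hf Pool.Agent.Helper54.Nt

lemma ln_mk (b v : ℝ) : ln b v = ⟨b, v⟩ := by apply Complex.ext <;> simp [ln]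

lemma zeta_big {a v : ℝ} (ha0 : 0 ≤ a) (ha : a ≤ 22) (hv : 48 ≤ v) :
    ‖riemannZeta (1 / 2 + ln a v)‖ ≤ 6 * (v + 24) ^ 2 := by
  have hre : (1 / 2 + ln a v).re = 1 / 2 + a := by rw [Complex.add_re, ln_re]; norm_num
  have him : (1 / 2 + ln a v).im = v := by rw [Complex.add_im, ln_im]; norm_num
  have h := Pool.Agent.H306R2.zeta_norm_le (s := 1 / 2 + ln a v) (by rw [hre]; linarith) (by
    refine le_trans ?_ (Complex.abs_im_le_norm _)
    rw [Complex.sub_im, him, Complex.one_im, sub_zero, abs_of_pos (by linarith)]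
    linarith)
  refine h.trans ?_
  have h2 : ‖(1 / 2 + ln a v : ℂ)‖ ≤ 1 / 2 + a + v := by
    refine (Complex.norm_le_abs_re_add_abs_im _).trans ?_
    rw [hre, him, abs_of_pos (by linarith), abs_of_pos (by linarith)]
  have h3 : ‖(1 / 2 + ln a v : ℂ)‖ + 1 ≤ v + 24 := by linarith
  gcongr

theorem fx_unif : ∃ K : ℝ, 1 ≤ K ∧ ∀ x : ℝ, 64 ≤ x → ∀ a : ℝ, 0 ≤ a → a ≤ 22 → ∀ u : ℝ,
    ‖fx (ln a u)‖ ≤ Real.exp (K * Real.log x) * ‖Gx (ln 1 x)‖ * Real.exp (K * |u - x|) := by
  obtain ⟨C, h⟩ := exists_GE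
  have hC := h.1
  obtain ⟨B, hB⟩ := (isCompact_closedBall (0 : ℂ) 80).exists_bound_of_continuousOn
    (f := fx) fx_diff.continuous.continuousOn
  have hG : 0 < ‖Gx (ln 1 48)‖ := norm_pos_iff.2 (Gx1_ne (by norm_num))
  set B' : ℝ := max 1 (B / ‖Gx (ln 1 48)‖) with hB'
  have hB1 : 1 ≤ B' := le_max_left _ _
  have hlB : 0 ≤ Real.log B' := Real.log_nonneg hB1
  refine ⟨17 + 22 * C + Real.log B', by linarith, fun x hx a ha0 ha u => ?_⟩
  set K := 17 + 22 * C + Real.log B' with hK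
  have hx0 : 0 < x := by linarith
  have hlx : 1 ≤ Real.log x := by
    rw [← Real.log_exp 1]
    apply Real.log_le_log (Real.exp_pos _)
    have := Real.exp_one_lt_d9
    linarith
  have hconj : ‖fx (ln a u)‖ = ‖fx (ln a |u|)‖ := by
    rcases le_or_gt 0 u with hu | hu
    · rw [abs_of_nonneg hu]
    · rw [abs_of_neg hu]
      have e : ln a u = starRingEnd ℂ (ln a (-u)) := by
        apply Complex.ext <;> simp [ln]
      rw [e, fx_conj, RCLike.norm_conj]
  have habs : |(|u|) - x| ≤ |u - x| := by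
    have := abs_abs_sub_abs_le u x
    rwa [abs_of_nonneg (by linarith : (0 : ℝ) ≤ x)] at this
  have hGx : 0 ≤ ‖Gx (ln 1 x)‖ := norm_nonneg _
  rcases le_or_gt 48 |u| with hu | hu
  · rw [hconj]
    set v := |u| with hv
    rw [fx_eq (by rw [ln_re]; linarith) (by
      intro h
      have := congrArg Complex.im h
      rw [ln_im] at this
      norm_num at this
      linarith), norm_mul]
    have h1 := zeta_big ha0 ha hu
    have h2 := h.ver (a := a) (x := x) (u := v) (by linarith) (by linarith)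
      (by rw [abs_of_nonneg ha0]; linarith) (by rw [abs_of_nonneg ha0]; linarith)
    have h3 := h.hor (a := 1) (b := a) (x := x) (by linarith) (by rw [abs_of_nonneg zero_le_one]; linarith)
      (by rw [abs_of_nonneg ha0]; linarith)
    rw [← ln_mk, ← ln_mk] at h2 h3
    have h4 : (a - 1) * (1 / 2 * Real.log x) + C * |a - 1| ≤ (11 + 22 * C) * Real.log x := by
      have h5 : |a - 1| ≤ 22 := by rw [abs_le]; constructor <;> linarith
      have h6 : C * |a - 1| ≤ C * 22 := by gcongr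
      have h7 : (a - 1) * (1 / 2 * Real.log x) ≤ 22 * (1 / 2 * Real.log x) := by gcongr; linarith
      have h8 : C * 22 * 1 ≤ C * 22 * Real.log x := by gcongr
      linarith
    have h9 : v ≤ x + |v - x| := by linarith [le_abs_self (v - x)]
    have h10 : v + 24 ≤ x ^ 2 * Real.exp |v - x| := by
      have h11 := Real.add_one_le_exp |v - x|
      have h12 : x + 24 ≤ x ^ 2 := by nlinarith
      have h13 := abs_nonneg (v - x)
      nlinarith
    have h14 : (v + 24) ^ 2 ≤ Real.exp (4 * Real.log x) * Real.exp (2 * |v - x|) := by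
      calc (v + 24) ^ 2 ≤ (x ^ 2 * Real.exp |v - x|) ^ 2 := by
            have : 0 ≤ v + 24 := by linarith
            gcongr
        _ = x ^ 4 * Real.exp |v - x| ^ 2 := by ring
        _ = _ := by
            have e4 : Real.exp (4 * Real.log x) = x ^ 4 := by
              rw [mul_comm, Real.exp_mul, Real.exp_log hx0]; norm_cast
            have e5 : Real.exp (2 * |v - x|) = Real.exp |v - x| ^ 2 := by
              rw [← Real.exp_nat_mul]; norm_num
            rw [e4, e5]
    have h6 : (6 : ℝ) ≤ Real.exp (2 * Real.log x) := by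
      have : Real.exp 2 ≤ Real.exp (2 * Real.log x) := Real.exp_le_exp.2 (by linarith)
      have h7 : (6 : ℝ) ≤ Real.exp 2 := by
        have : Real.exp 2 = Real.exp 1 ^ 2 := by rw [← Real.exp_nat_mul]; norm_num
        rw [this]
        have := Real.exp_one_gt_d9
        nlinarith
      linarith
    calc ‖Gx (ln a v)‖ * ‖riemannZeta (1 / 2 + ln a v)‖
        ≤ (‖Gx (ln 1 x)‖ * Real.exp ((11 + 22 * C) * Real.log x) * Real.exp (C * |v - x|)) *
          (Real.exp (2 * Real.log x) * (Real.exp (4 * Real.log x) * Real.exp (2 * |v - x|))) := by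
          refine mul_le_mul ?_ ?_ (norm_nonneg _) (by positivity)
          · refine h2.trans ?_
            gcongr
            refine h3.trans ?_
            gcongr
          · refine h1.trans ?_
            gcongr
      _ = Real.exp ((17 + 22 * C) * Real.log x) * ‖Gx (ln 1 x)‖ * Real.exp ((C + 2) * |v - x|) := by
          have e1 : Real.exp ((17 + 22 * C) * Real.log x) = Real.exp ((11 + 22 * C) * Real.log x) *
            Real.exp (2 * Real.log x) * Real.exp (4 * Real.log x) := by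
            rw [← Real.exp_add, ← Real.exp_add]; ring_nf
          have e2 : Real.exp ((C + 2) * |v - x|) = Real.exp (C * |v - x|) * Real.exp (2 * |v - x|) := by
            rw [← Real.exp_add]; ring_nf
          rw [e1, e2]; ring
      _ ≤ _ := by
          have e3 : (17 + 22 * C) ≤ K := by linarith
          have e4 : C + 2 ≤ K := by linarith
          gcongr
  · have hmem : ln a u ∈ closedBall (0 : ℂ) 80 := by
      rw [mem_closedBall_zero_iff]
      refine (Complex.norm_le_abs_re_add_abs_im _).trans ?_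
      rw [ln_re, ln_im, abs_of_nonneg ha0]
      linarith
    have h7 := hB _ hmem
    have h8 := h.ver (a := 1) (x := x) (u := 48) (by linarith) (by norm_num)
      (by rw [abs_of_nonneg zero_le_one]; linarith) (by rw [abs_of_nonneg zero_le_one]; norm_num)
    rw [← ln_mk, ← ln_mk] at h8
    have h9 : |48 - x| ≤ |u - x| := by
      rw [abs_of_nonpos (by linarith), abs_of_nonpos (by linarith [(abs_lt.1 hu).2])]
      linarith [(abs_lt.1 hu).2]
    have hB0 : 0 ≤ B := (norm_nonneg _).trans h7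
    have h10 : B' ≤ Real.exp (K * Real.log x) := by
      calc B' = Real.exp (Real.log B') := (Real.exp_log (by linarith)).symm
        _ ≤ _ := by
          apply Real.exp_le_exp.2
          have h11 : Real.log B' * 1 ≤ Real.log B' * Real.log x := by gcongr
          have h12 : Real.log B' ≤ K := by linarith
          have h13 : Real.log B' * Real.log x ≤ K * Real.log x := by gcongr
          linarith
    calc ‖fx (ln a u)‖ ≤ B := h7
      _ = B / ‖Gx (ln 1 48)‖ * ‖Gx (ln 1 48)‖ := by field_simp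
      _ ≤ B' * (‖Gx (ln 1 x)‖ * Real.exp (C * |48 - x|)) := by
        gcongr
        exact le_max_right _ _
      _ ≤ Real.exp (K * Real.log x) * (‖Gx (ln 1 x)‖ * Real.exp (K * |u - x|)) := by
        have : C ≤ K := by linarith
        gcongr
      _ = _ := by ring

theorem Hx_unif : ∃ K : ℝ, 1 ≤ K ∧ ∀ x : ℝ, 64 ≤ x → ∀ τ : ℝ, 0 < τ → τ ≤ 1 → ∀ w : ℂ,
    |w.re| ≤ 22 → ‖Hx (-τ) w‖ ≤ Real.exp (K * Real.log x) * ‖Gx (ln 1 x)‖ *
      Real.exp (K * |w.im - x|) := by
  obtain ⟨K, hK, hK2⟩ := fx_unif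
  have key : ∀ x : ℝ, 64 ≤ x → ∀ τ : ℝ, 0 < τ → τ ≤ 1 → ∀ a v : ℝ, 0 ≤ a → a ≤ 22 →
      ‖Hx (-τ) ⟨a, v⟩‖ ≤ Real.exp ((K + 2 * K ^ 2 + 1) * Real.log x) * ‖Gx (ln 1 x)‖ *
      Real.exp (K * |v - x|) := by
    intro x hx τ hτ hτ1 a v ha0 ha
    have hx0 : 0 < x := by linarith
    have hlx : 1 ≤ Real.log x := by
      rw [← Real.log_exp 1]
      apply Real.log_le_log (Real.exp_pos _)
      have := Real.exp_one_lt_d9
      linarith
    set B : ℝ := Real.exp (K * Real.log x) * ‖Gx (ln 1 x)‖ * Real.exp (K * |v - x|) *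
      Real.exp (2 * τ * K ^ 2) with hB
    have hp : ∀ u : ℝ, ‖fx (ln a u) * cexp ((ln a u - ⟨a, v⟩) ^ 2 / (4 * τ))‖ ≤
        B * Real.exp (-(u - v) ^ 2 / (8 * τ)) := by
      intro u
      rw [norm_mul, norm_gk]
      have h1 := hK2 x hx a ha0 ha u
      have h2 : |u - x| ≤ |u - v| + |v - x| := abs_sub_le _ _ _
      have h3 := young hτ K (u - v)
      have e1 : Real.exp (((a - (⟨a, v⟩ : ℂ).re) ^ 2 - (u - (⟨a, v⟩ : ℂ).im) ^ 2) / (4 * τ)) =
          Real.exp (-(u - v) ^ 2 / (4 * τ)) := by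
        congr 2
        simp only
        ring
      rw [e1]
      calc ‖fx (ln a u)‖ * Real.exp (-(u - v) ^ 2 / (4 * τ))
          ≤ (Real.exp (K * Real.log x) * ‖Gx (ln 1 x)‖ * Real.exp (K * (|u - v| + |v - x|))) *
            Real.exp (-(u - v) ^ 2 / (4 * τ)) := by
            gcongr
            refine h1.trans ?_
            gcongr
        _ = Real.exp (K * Real.log x) * ‖Gx (ln 1 x)‖ * Real.exp (K * |v - x|) *
            Real.exp (K * |u - v| + -(u - v) ^ 2 / (4 * τ)) := by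
            rw [mul_add, Real.exp_add, Real.exp_add]; ring
        _ ≤ Real.exp (K * Real.log x) * ‖Gx (ln 1 x)‖ * Real.exp (K * |v - x|) *
            Real.exp (2 * τ * K ^ 2 + -(u - v) ^ 2 / (8 * τ)) := by gcongr
        _ = _ := by rw [Real.exp_add, hB]; ring
    have h5 := norm_integral_le_of_norm_le ((gauss8_int hτ v).const_mul B) (Eventually.of_forall hp)
    rw [Hx_neg hτ a ⟨a, v⟩, integral_const_mul, gauss8 hτ, norm_mul, Complex.norm_real,
      Real.norm_of_nonneg (Real.sqrt_nonneg _)] at h5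
    have h6 := sqrt84 hτ
    have h7 : 0 < Real.sqrt (4 * Real.pi * τ) := Real.sqrt_pos.2 (by have := Real.pi_pos; positivity)
    have hB0 : 0 ≤ B := by rw [hB]; positivity
    have h8 : Real.sqrt (4 * Real.pi * τ) * ‖Hx (-τ) ⟨a, v⟩‖ ≤
        Real.sqrt (4 * Real.pi * τ) * (2 * B) := by
      refine h5.trans ?_
      nlinarith
    have h9 := le_of_mul_le_mul_left h8 h7
    refine h9.trans ?_
    rw [hB]
    have h10 : Real.exp (2 * τ * K ^ 2) ≤ Real.exp (2 * K ^ 2 * Real.log x) := by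
      apply Real.exp_le_exp.2
      have : 2 * τ * K ^ 2 ≤ 2 * 1 * K ^ 2 := by gcongr
      have h11 : 2 * K ^ 2 * 1 ≤ 2 * K ^ 2 * Real.log x := by gcongr
      linarith
    have h12 : (2 : ℝ) ≤ Real.exp (Real.log x) := by rw [Real.exp_log hx0]; linarith
    calc 2 * (Real.exp (K * Real.log x) * ‖Gx (ln 1 x)‖ * Real.exp (K * |v - x|) *
          Real.exp (2 * τ * K ^ 2))
        ≤ Real.exp (Real.log x) * (Real.exp (K * Real.log x) * ‖Gx (ln 1 x)‖ *
          Real.exp (K * |v - x|) * Real.exp (2 * K ^ 2 * Real.log x)) := by gcongr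
      _ = _ := by
          have e1 : Real.exp ((K + 2 * K ^ 2 + 1) * Real.log x) = Real.exp (Real.log x) *
            Real.exp (K * Real.log x) * Real.exp (2 * K ^ 2 * Real.log x) := by
            rw [← Real.exp_add, ← Real.exp_add]; ring_nf
          rw [e1]; ring
  refine ⟨K + 2 * K ^ 2 + 1, by nlinarith, fun x hx τ hτ hτ1 w hw => ?_⟩
  have hkk : K ≤ K + 2 * K ^ 2 + 1 := by nlinarith
  have hw' : w = ⟨w.re, w.im⟩ := rfl
  rcases le_or_gt 0 w.re with h0 | h0
  · rw [abs_of_nonneg h0] at hw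
    have h1 := key x hx τ hτ hτ1 w.re w.im h0 hw
    rw [← hw'] at h1
    refine h1.trans ?_
    gcongr
  · rw [abs_of_neg h0] at hw
    have h1 := key x hx τ hτ hτ1 (-w.re) w.im (by linarith) hw
    have e : w = -(starRingEnd ℂ ⟨-w.re, w.im⟩) := by apply Complex.ext <;> simp
    have e2 : ‖Hx (-τ) w‖ = ‖Hx (-τ) ⟨-w.re, w.im⟩‖ := by
      conv_lhs => rw [e]
      rw [Hx_refl, RCLike.norm_conj]
    rw [e2]
    refine h1.trans ?_
    gcongr

theorem Hx_center : ∃ K x0 : ℝ, 1 ≤ K ∧ 64 ≤ x0 ∧ ∀ x τ : ℝ, x0 ≤ x → 0 < τ → τ ≤ 1 →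
    Real.exp (-K) * ‖Gx (ln 1 x)‖ ≤ ‖Hx (-τ) (⟨4, x⟩ + 2 * τ * logDeriv Gx (ln 1 x))‖ := by
  obtain ⟨C, hGE⟩ := exists_GE
  have hC := hGE.1
  obtain ⟨K1, x1, hK1, hx1, h4⟩ := line4
  refine ⟨1 + 3 * C + C ^ 2, max x1 (2 * K1), by nlinarith, hx1.trans (le_max_left _ _), ?_⟩
  intro x τ hx hτ hτ1
  have hxx1 : x1 ≤ x := (le_max_left _ _).trans hx
  have hxK : 2 * K1 ≤ x := (le_max_right _ _).trans hx
  have hx64 : 64 ≤ x := hx1.trans hxx1
  have hx0 : 0 < x := by linarith
  have hsq : 8 ≤ Real.sqrt x := by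
    apply Real.le_sqrt_of_sq_le; linarith
  have h1 := (h4 x 0 τ hxx1 le_rfl (by linarith) hτ hτ1 (by
    rw [← mul_div_assoc, div_le_one hx0]; linarith) ⟨4, x⟩ rfl (by simp)).1
  set lam := logDeriv Gx (ln 1 x) with hlam
  have hre := hGE.lam_re (by linarith : 4 ≤ x)
  have him := hGE.lam_im (by linarith : 4 ≤ x)
  rw [← hlam] at hre him
  unfold Bx at h1
  rw [← hlam] at h1
  rw [norm_div, norm_mul, Complex.norm_exp] at h1
  have hG : 0 < ‖Gx (ln 1 x)‖ := norm_pos_iff.2 (Gx1_ne (by linarith))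
  rw [le_div_iff₀ (by positivity)] at h1
  refine le_trans ?_ h1
  have e1 : lam * ⟨4, x⟩ + τ * lam ^ 2 - lam * ln 1 x = (3 : ℝ) * lam + (τ : ℝ) * lam ^ 2 := by
    have : (⟨4, x⟩ : ℂ) = ln 1 x + 3 := by apply Complex.ext <;> simp [ln]; norm_num
    rw [this]; push_cast; ring
  rw [e1, Complex.add_re, Complex.re_ofReal_mul, Complex.re_ofReal_mul]
  have e2 : (lam ^ 2).re = lam.re ^ 2 - lam.im ^ 2 := by rw [sq, Complex.mul_re]; ring
  rw [e2]
  have hlx : 0 ≤ Real.log x := Real.log_nonneg (by linarith)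
  have h5 : -C ≤ lam.re := by linarith [(abs_le.1 hre).1]
  have h6 : lam.im ^ 2 ≤ C ^ 2 := by rw [← sq_abs lam.im]; gcongr
  have h7 : -(C ^ 2) ≤ τ * (lam.re ^ 2 - lam.im ^ 2) := by
    have h8 : τ * (-(C ^ 2)) ≤ τ * (lam.re ^ 2 - lam.im ^ 2) := by
      have : -(C ^ 2) ≤ lam.re ^ 2 - lam.im ^ 2 := by linarith [sq_nonneg lam.re]
      gcongr
    have h9 : τ * C ^ 2 ≤ 1 * C ^ 2 := by gcongr
    linarith
  have h10 : Real.exp (-(3 * C + C ^ 2)) ≤ Real.exp (3 * lam.re + τ * (lam.re ^ 2 - lam.im ^ 2)) := by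
    apply Real.exp_le_exp.2; linarith
  have h11 : Real.exp (-(1 + 3 * C + C ^ 2)) ≤ 1 / 2 * Real.exp (-(3 * C + C ^ 2)) := by
    have : -(1 + 3 * C + C ^ 2) = -1 + -(3 * C + C ^ 2) := by ring
    rw [this, Real.exp_add]
    gcongr
    rw [Real.exp_neg, inv_eq_one_div]
    apply one_div_le_one_div_of_le (by norm_num)
    have := Real.exp_one_gt_d9
    linarith
  calc _ ≤ (1 / 2 * Real.exp (-(3 * C + C ^ 2))) * ‖Gx (ln 1 x)‖ := by gcongr
    _ ≤ (1 / 2 * Real.exp (3 * lam.re + τ * (lam.re ^ 2 - lam.im ^ 2))) * ‖Gx (ln 1 x)‖ := by gcongr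
    _ = _ := by ring

lemma Hx_entire {τ : ℝ} (hτ : 0 < τ) : Differentiable ℂ (Hx (-τ)) := Hx_diff (by linarith)

theorem re_low : ∃ K x0 : ℝ, 1 ≤ K ∧ 64 ≤ x0 ∧ ∀ x τ b : ℝ, x0 ≤ x → 0 < τ → τ * Real.log x ≤ 1 →
    ∀ W : ℂ, W.im = x → 0 ≤ W.re → W.re ≤ 6 → b < W.re →
    (∀ ρ : ℂ, Hx (-τ) ρ = 0 → |ρ.im - x| ≤ 10 → ρ.re ≤ b) →
    -(K * Real.log x) ≤ (logDeriv (Hx (-τ)) W).re := by
  obtain ⟨C, hGE⟩ := exists_GE
  have hC := hGE.1
  obtain ⟨K1, hK1, h1⟩ := Hx_unif
  obtain ⟨K2, x2, hK2, hx2, h2⟩ := Hx_center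
  refine ⟨8 * (18 * K1 + K2) * 8, max x2 (Real.exp (2 * C)), by linarith, hx2.trans (le_max_left _ _), ?_⟩
  intro x τ b hx hτ hτx W hWi hW0 hW6 hbW hno
  have hxx2 : x2 ≤ x := (le_max_left _ _).trans hx
  have hx64 : 64 ≤ x := hx2.trans hxx2
  have hx0 : 0 < x := by linarith
  have hl2C : 2 * C ≤ Real.log x := by
    rw [Real.le_log_iff_exp_le hx0]; exact (le_max_right _ _).trans hx
  set l := Real.log x with hl
  have hl1 : 1 ≤ l := by linarith
  have hτ1 : τ ≤ 1 := by
    calc τ = τ * 1 := (mul_one _).symm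
      _ ≤ τ * l := by gcongr
      _ ≤ 1 := hτx
  have hτC : 2 * τ * C ≤ 1 := by
    calc 2 * τ * C = τ * (2 * C) := by ring
      _ ≤ τ * l := by gcongr
      _ ≤ 1 := hτx
  set lam := logDeriv Gx (ln 1 x) with hlam
  have hre := hGE.lam_re (by linarith : 4 ≤ x)
  have him := hGE.lam_im (by linarith : 4 ≤ x)
  rw [← hlam, ← hl] at hre
  rw [← hlam] at him
  set c : ℂ := ⟨4, x⟩ + 2 * τ * lam with hc
  have e0 : (2 * τ * lam : ℂ) = ((2 * τ : ℝ) : ℂ) * lam := by push_cast; ring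
  have hcre : c.re = 4 + 2 * τ * lam.re := by
    rw [hc, Complex.add_re, e0, Complex.re_ofReal_mul]
  have hcim : c.im = x + 2 * τ * lam.im := by
    rw [hc, Complex.add_im, e0, Complex.im_ofReal_mul]
  have hc1 : |c.im - x| ≤ 1 := by
    rw [hcim, add_sub_cancel_left, abs_mul, abs_of_pos (by positivity : 0 < 2 * τ)]
    calc 2 * τ * |lam.im| ≤ 2 * τ * C := by gcongr
      _ ≤ 1 := hτC
  have hc2 : 3 ≤ c.re ∧ c.re ≤ 6 := by
    rw [hcre]
    obtain ⟨a1, a2⟩ := abs_le.1 hre
    have a3 : 2 * τ * lam.re ≤ 2 * τ * (1 / 2 * l + C) := by gcongr; linarith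
    have a4 : 2 * τ * (1 / 2 * l - C) ≤ 2 * τ * lam.re := by gcongr; linarith
    have a5 : 2 * τ * (1 / 2 * l + C) = τ * l + 2 * τ * C := by ring
    have a6 : 2 * τ * (1 / 2 * l - C) = τ * l - 2 * τ * C := by ring
    have a7 : 0 ≤ τ * l := by positivity
    constructor <;> linarith
  have hcn := h2 x τ hxx2 hτ hτ1
  rw [← hlam, ← hc] at hcn
  have hG : 0 < ‖Gx (ln 1 x)‖ := norm_pos_iff.2 (Gx1_ne (by linarith))
  have hHc : 0 < ‖Hx (-τ) c‖ := lt_of_lt_of_le (by positivity) hcn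
  have hM : 0 < (18 * K1 + K2) * l := by positivity
  have key := re_ld (f := Hx (-τ)) (c := c) (r := 8) (M := (18 * K1 + K2) * l) (b := b) (by norm_num) hM
    (Hx_entire hτ) (norm_pos_iff.1 hHc) (by
      intro z hz
      rw [mem_closedBall, dist_eq_norm] at hz
      have z1 := (Complex.abs_re_le_norm (z - c)).trans hz
      have z2 := (Complex.abs_im_le_norm (z - c)).trans hz
      rw [Complex.sub_re] at z1
      rw [Complex.sub_im] at z2
      have z3 : |z.re| ≤ 22 := by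
        rw [abs_le] at z1 ⊢
        constructor <;> linarith [z1.1, z1.2, hc2.1, hc2.2]
      have z4 : |z.im - x| ≤ 17 := by
        have := abs_sub_le z.im c.im x
        linarith
      refine (h1 x hx64 τ hτ hτ1 z z3).trans ?_
      calc Real.exp (K1 * l) * ‖Gx (ln 1 x)‖ * Real.exp (K1 * |z.im - x|)
          ≤ Real.exp (K1 * l) * ‖Gx (ln 1 x)‖ * Real.exp (K1 * 17) := by gcongr
        _ = (Real.exp (-K2) * ‖Gx (ln 1 x)‖) * Real.exp (K1 * l + K1 * 17 + K2) := by
            have : Real.exp (K1 * l) = Real.exp (-K2) * Real.exp (K1 * l + K1 * 17 + K2) *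
                Real.exp (-(K1 * 17)) := by
              rw [← Real.exp_add, ← Real.exp_add]; ring_nf
            rw [this]
            have h3 : Real.exp (-(K1 * 17)) * Real.exp (K1 * 17) = 1 := by
              rw [← Real.exp_add, neg_add_cancel, Real.exp_zero]
            calc _ = (Real.exp (-K2) * ‖Gx (ln 1 x)‖) * Real.exp (K1 * l + K1 * 17 + K2) *
                  (Real.exp (-(K1 * 17)) * Real.exp (K1 * 17)) := by ring
              _ = _ := by rw [h3, mul_one]
        _ ≤ ‖Hx (-τ) c‖ * Real.exp ((18 * K1 + K2) * l) := by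
            gcongr ?_ * Real.exp ?_
            have h4 : K1 * 17 * 1 ≤ K1 * 17 * l := by gcongr
            have h5 : K2 * 1 ≤ K2 * l := by gcongr
            linarith)
    (by
      intro ρ hρ h0
      refine hno ρ h0 ?_
      rw [mem_closedBall, dist_eq_norm] at hρ
      have z2 := (Complex.abs_im_le_norm (ρ - c)).trans hρ
      rw [Complex.sub_im] at z2
      have := abs_sub_le ρ.im c.im x
      linarith) (z := W) (by
      refine (Complex.norm_le_abs_re_add_abs_im _).trans ?_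
      rw [Complex.sub_re, Complex.sub_im, hWi]
      have h3 : |W.re - c.re| ≤ 6 := by
        rw [abs_le]
        constructor <;> linarith [hc2.1, hc2.2]
      have h4 : |x - c.im| ≤ 1 := by rw [abs_sub_comm]; exact hc1
      linarith) hbW
  refine le_trans (le_of_eq ?_) key
  ring

end Pool.Agent.Helper54.Nm
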